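import Mathlib

/-! Unimodality of the number of bounded compositions. -/

namespace Pool.Agent.R974.CT

open Polynomial Finset

/-- coefficient with integer index -/
noncomputable def az (p : ℕ[X]) (k : ℤ) : ℕ := if 0 ≤ k then p.coeff k.toNat else 0

theorem az_nat (p : ℕ[X]) (k : ℕ) : az p k = p.coeff k := by
  unfold az; simp

theorem az_mul_X_pow (p : ℕ[X]) (i : ℕ) (k : ℤ) : az (p * X^i) k = az p (k - i) := by
  unfold az
  by_cases h1 : 0 ≤ k
  · rw [if_pos h1, Polynomial.coeff_mul_X_pow']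
    by_cases h2 : i ≤ k.toNat
    · rw [if_pos h2, if_pos (by omega)]
      congr 1; omega
    · rw [if_neg h2, if_neg (by omega)]
  · rw [if_neg h1, if_neg (by omega)]

theorem az_sum {ι : Type*} (s : Finset ι) (p : ι → ℕ[X]) (k : ℤ) :
    az (∑ i ∈ s, p i) k = ∑ i ∈ s, az (p i) k := by
  unfold az
  split_ifs
  · rw [Polynomial.finsetSum_coeff]
  · simp

theorem az_mul_geom (p : ℕ[X]) (m : ℕ) (k : ℤ) :
    az (p * ∑ i ∈ range (m+1), X^i) k = ∑ i ∈ range (m+1), az p (k - i) := by
  rw [Finset.mul_sum, az_sum]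
  apply Finset.sum_congr rfl
  intro i _
  exact az_mul_X_pow p i k

/-- symmetric and unimodal about `T/2` -/
def SU (T : ℕ) (p : ℕ[X]) : Prop :=
  (∀ k : ℤ, az p k = az p (T - k)) ∧ (∀ k : ℤ, 2*k+1 ≤ T → az p k ≤ az p (k+1))

theorem SU.mono {T : ℕ} {p : ℕ[X]} (h : SU T p) (j : ℤ) : ∀ (i : ℕ), 2*(j+i) ≤ T+1 →
    az p j ≤ az p (j+i)
  | 0, _ => by simp
  | (i+1), hi => by
      have h1 := SU.mono h j i (by push_cast at hi; omega)
      have h2 := h.2 (j+i) (by push_cast at hi; omega)
      have e : j + ((i+1:ℕ):ℤ) = j + i + 1 := by push_cast; ring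
      rw [e]
      exact h1.trans h2

theorem SU.mono' {T : ℕ} {p : ℕ[X]} (h : SU T p) {j j' : ℤ} (hj : j ≤ j') (hj' : 2*j' ≤ T+1) :
    az p j ≤ az p j' := by
  have := h.mono j (j'-j).toNat (by rw [Int.toNat_of_nonneg (by omega)]; omega)
  rw [Int.toNat_of_nonneg (by omega)] at this
  simpa using this

theorem SU_one : SU 0 1 := by
  constructor
  · intro k
    unfold az
    simp only [Nat.cast_zero, zero_sub, Polynomial.coeff_one]
    by_cases h : k = 0
    · subst h; simp
    · by_cases h1 : 0 ≤ k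
      · rw [if_pos h1, if_neg (by omega), if_neg (by omega)]
      · rw [if_neg h1, if_pos (by omega), if_neg (by omega)]
  · intro k hk
    have : ¬ 0 ≤ k := by push_cast at hk; omega
    unfold az
    rw [if_neg this]; exact Nat.zero_le _

theorem SU_mul {T : ℕ} {p : ℕ[X]} (h : SU T p) (m : ℕ) : SU (T+m) (p * ∑ i ∈ range (m+1), X^i) := by
  constructor
  · intro k
    rw [az_mul_geom, az_mul_geom, ← Finset.sum_range_reflect]
    apply Finset.sum_congr rfl
    intro i hi
    rw [Finset.mem_range] at hi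
    rw [h.1]
    congr 1
    push_cast
    have : ((m + 1 - 1 - i : ℕ) : ℤ) = m - i := by omega
    omega
  · intro k hk
    rw [az_mul_geom, az_mul_geom, Finset.sum_range_succ' (fun i : ℕ => az p (k + 1 - i)),
      Finset.sum_range_succ (fun i : ℕ => az p (k - i))]
    have e : ∑ i ∈ range m, az p (k + 1 - ((i+1:ℕ):ℤ)) = ∑ i ∈ range m, az p (k - i) := by
      apply Finset.sum_congr rfl
      intro i _
      congr 1; push_cast; ring
    rw [e]
    apply Nat.add_le_add_left
    simp only [Nat.cast_zero, sub_zero]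
    push_cast at hk
    by_cases h1 : 2*(k+1) ≤ T+1
    · exact h.mono' (by omega) h1
    · rw [h.1 (k+1)]
      exact h.mono' (by omega) (by omega)

/-- number of `x ≤ t` with total `k` -/
def Acnt {β : Type*} [Fintype β] [DecidableEq β] (t : β → ℕ) (k : ℕ) : Finset (β → ℕ) :=
  (Fintype.piFinset (fun b => range (t b + 1))).filter (fun x => ∑ b, x b = k)

noncomputable def Ppoly {β : Type*} (s : Finset β) (t : β → ℕ) : ℕ[X] :=
  ∏ b ∈ s, ∑ i ∈ range (t b + 1), X^i

theorem SU_P {β : Type*} [DecidableEq β] (s : Finset β) (t : β → ℕ) : SU (∑ b ∈ s, t b) (Ppoly s t) := by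
  induction s using Finset.induction_on with
  | empty => simpa [Ppoly] using SU_one
  | insert b s hb ih =>
    unfold Ppoly at ih ⊢
    rw [Finset.sum_insert hb, Finset.prod_insert hb, add_comm, mul_comm]
    exact SU_mul ih (t b)

theorem card_Acnt {β : Type*} [Fintype β] [DecidableEq β] (t : β → ℕ) (k : ℕ) :
    (Acnt t k).card = az (Ppoly univ t) k := by
  rw [az_nat]
  unfold Ppoly
  rw [Finset.prod_univ_sum, Polynomial.finsetSum_coeff]
  unfold Acnt
  rw [Finset.card_filter]
  apply Finset.sum_congr rfl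
  intro x _
  rw [Finset.prod_pow_eq_pow_sum, Polynomial.coeff_X_pow]
  by_cases h : ∑ b, x b = k
  · rw [if_pos h, if_pos h.symm]
  · rw [if_neg h, if_neg (fun h' => h h'.symm)]

theorem Acnt_le {β : Type*} [Fintype β] [DecidableEq β] (t : β → ℕ) (a b : ℕ) (hT : ∑ c, t c = a + b)
    (hab : b < a) : (Acnt t a).card ≤ (Acnt t (a-1)).card := by
  rw [card_Acnt, card_Acnt]
  have h := SU_P (univ : Finset β) t
  rw [hT] at h
  have e1 : az (Ppoly univ t) (a:ℤ) = az (Ppoly univ t) (b:ℤ) := by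
    rw [h.1]; congr 1; push_cast; ring
  have e2 : az (Ppoly univ t) ((a-1:ℕ):ℤ) = az (Ppoly univ t) ((b:ℤ)+1) := by
    rw [h.1]; congr 1; push_cast; omega
  rw [e1, e2]
  exact h.2 b (by push_cast; omega)

end Pool.Agent.R974.CT
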