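import Mathlib
import Pool.Agent.R974.CT.U

/-! Transfer inequality for the number of contingency tables and balancing. -/

namespace Pool.Agent.R974.CT

open Finset

set_option linter.unusedSectionVars false

variable {α β : Type*} [Fintype α] [DecidableEq α] [Fintype β] [DecidableEq β]

/-- The finite set of tables with row sums `r` and column sums `c`. -/
def TabF (r : α → ℕ) (c : β → ℕ) : Finset (α → β → ℕ) :=
  (Fintype.piFinset (fun _ : α => Fintype.piFinset (fun j => range (c j + 1)))).filter
    (fun X => (∀ i, ∑ j, X i j = r i) ∧ ∀ j, ∑ i, X i j = c j)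

theorem mem_TabF {r : α → ℕ} {c : β → ℕ} {X : α → β → ℕ} :
    X ∈ TabF r c ↔ (∀ i, ∑ j, X i j = r i) ∧ ∀ j, ∑ i, X i j = c j := by
  unfold TabF
  rw [Finset.mem_filter]
  constructor
  · exact fun h => h.2
  · intro h
    refine ⟨?_, h⟩
    rw [Fintype.mem_piFinset]
    intro i
    rw [Fintype.mem_piFinset]
    intro j
    rw [Finset.mem_range, ← h.2 j]
    exact Nat.lt_succ_of_le (Finset.single_le_sum (f := fun i => X i j) (fun _ _ => Nat.zero_le _) (Finset.mem_univ i))

theorem sum_two {γ : Type*} [AddCommMonoid γ] (f : α → γ) {i j : α} (hij : i ≠ j) :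
    ∑ k, f k = f i + (f j + ∑ k ∈ (univ.erase i).erase j, f k) := by
  rw [← Finset.add_sum_erase univ f (Finset.mem_univ i),
    ← Finset.add_sum_erase (univ.erase i) f (Finset.mem_erase.mpr ⟨hij.symm, Finset.mem_univ j⟩)]

/-- erase two rows -/
def er (i j : α) (X : α → β → ℕ) : α → β → ℕ := Function.update (Function.update X i 0) j 0

theorem er_i (i j : α) (hij : i ≠ j) (X : α → β → ℕ) : er i j X i = 0 := by
  unfold er
  rw [Function.update_of_ne hij, Function.update_self]

theorem er_j (i j : α) (X : α → β → ℕ) : er i j X j = 0 := by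
  unfold er; rw [Function.update_self]

theorem er_o (i j k : α) (hi : k ≠ i) (hj : k ≠ j) (X : α → β → ℕ) : er i j X k = X k := by
  unfold er
  rw [Function.update_of_ne hj, Function.update_of_ne hi]

/-- one-step balancing of row sums -/
def tr (r : α → ℕ) (i j : α) : α → ℕ := Function.update (Function.update r i (r i - 1)) j (r j + 1)

theorem tr_i (r : α → ℕ) (i j : α) (hij : i ≠ j) : tr r i j i = r i - 1 := by
  unfold tr
  rw [Function.update_of_ne hij, Function.update_self]

theorem tr_j (r : α → ℕ) (i j : α) : tr r i j j = r j + 1 := by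
  unfold tr; rw [Function.update_self]

theorem tr_o (r : α → ℕ) (i j k : α) (hi : k ≠ i) (hj : k ≠ j) : tr r i j k = r k := by
  unfold tr
  rw [Function.update_of_ne hj, Function.update_of_ne hi]

theorem transfer (r : α → ℕ) (c : β → ℕ) (i j : α) (h : r j < r i) :
    (TabF r c).card ≤ (TabF (tr r i j) c).card := by
  have hij : i ≠ j := by
    intro e; subst e; exact lt_irrefl _ h
  classical
  set I : Finset (α → β → ℕ) := (TabF r c).image (er i j) with hI
  have h1 : (TabF r c).card = ∑ Y ∈ I, ((TabF r c).filter (fun X => er i j X = Y)).card :=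
    Finset.card_eq_sum_card_fiberwise (fun X hX => Finset.mem_image_of_mem _ hX)
  have h2 : ∑ Y ∈ I, ((TabF (tr r i j) c).filter (fun X => er i j X = Y)).card ≤
      (TabF (tr r i j) c).card := by
    rw [← Finset.card_biUnion]
    · apply Finset.card_le_card
      intro X hX
      rw [Finset.mem_biUnion] at hX
      obtain ⟨Y, _, hX⟩ := hX
      exact (Finset.mem_filter.mp hX).1
    · intro Y _ Y' _ hYY
      simp only [Function.onFun]
      rw [Finset.disjoint_left]
      intro X hX hX'
      exact hYY ((Finset.mem_filter.mp hX).2.symm.trans (Finset.mem_filter.mp hX').2)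
  rw [h1]
  refine le_trans (Finset.sum_le_sum ?_) h2
  intro Y hY
  rw [hI, Finset.mem_image] at hY
  obtain ⟨X0, hX0, rfl⟩ := hY
  rw [mem_TabF] at hX0
  set t : β → ℕ := fun b => X0 i b + X0 j b with ht
  have hT : ∑ b, t b = r i + r j := by
    rw [ht, Finset.sum_add_distrib, hX0.1 i, hX0.1 j]
  -- first injection
  have hA : ((TabF r c).filter (fun X => er i j X = er i j X0)).card ≤ (Acnt t (r i)).card := by
    apply Finset.card_le_card_of_injOn (fun X => X i)
    · intro X hX
      rw [Finset.mem_coe, Finset.mem_filter, mem_TabF] at hX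
      obtain ⟨⟨hr, hc⟩, he⟩ := hX
      have hsame : ∀ k, k ≠ i → k ≠ j → X k = X0 k := by
        intro k hki hkj
        rw [← er_o i j k hki hkj X, he, er_o i j k hki hkj X0]
      show X i ∈ (Acnt t (r i) : Finset (β → ℕ))
      unfold Acnt
      rw [Finset.mem_filter, Fintype.mem_piFinset]
      refine ⟨fun b => ?_, hr i⟩
      rw [Finset.mem_range]
      have e1 := hc b
      have e2 := hX0.2 b
      rw [sum_two (fun k => X k b) hij] at e1
      rw [sum_two (fun k => X0 k b) hij] at e2
      have e3 : ∑ k ∈ (univ.erase i).erase j, X k b = ∑ k ∈ (univ.erase i).erase j, X0 k b := by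
        apply Finset.sum_congr rfl
        intro k hk
        rw [Finset.mem_erase, Finset.mem_erase] at hk
        rw [hsame k hk.2.1 hk.1]
      rw [e3] at e1
      have : t b = X0 i b + X0 j b := rfl
      omega
    · intro X hX X' hX' hXX
      rw [Finset.mem_coe, Finset.mem_filter, mem_TabF] at hX hX'
      obtain ⟨⟨hr, hc⟩, he⟩ := hX
      obtain ⟨⟨hr', hc'⟩, he'⟩ := hX'
      have hXi : X i = X' i := hXX
      have hsame : ∀ k, k ≠ i → k ≠ j → X k = X' k := by
        intro k hki hkj
        rw [← er_o i j k hki hkj X, he, ← he', er_o i j k hki hkj X']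
      funext k
      by_cases hki : k = i
      · rw [hki]; exact hXi
      · by_cases hkj : k = j
        · rw [hkj]
          funext b
          have e1 := hc b
          have e2 := hc' b
          rw [sum_two (fun k => X k b) hij] at e1
          rw [sum_two (fun k => X' k b) hij] at e2
          have e3 : ∑ k ∈ (univ.erase i).erase j, X k b = ∑ k ∈ (univ.erase i).erase j, X' k b := by
            apply Finset.sum_congr rfl
            intro k hk
            rw [Finset.mem_erase, Finset.mem_erase] at hk
            rw [hsame k hk.2.1 hk.1]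
          have e4 : X i b = X' i b := by rw [hXi]
          omega
        · exact hsame k hki hkj
  -- second injection
  have hB : (Acnt t (r i - 1)).card ≤
      ((TabF (tr r i j) c).filter (fun X => er i j X = er i j X0)).card := by
    apply Finset.card_le_card_of_injOn
      (fun x => Function.update (Function.update (er i j X0) i x) j (fun b => t b - x b))
    · intro x hx
      rw [Finset.mem_coe] at hx
      unfold Acnt at hx
      rw [Finset.mem_filter, Fintype.mem_piFinset] at hx
      obtain ⟨hxt, hxs⟩ := hx
      set Z : α → β → ℕ := Function.update (Function.update (er i j X0) i x) j (fun b => t b - x b) with hZ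
      have Zi : Z i = x := by rw [hZ, Function.update_of_ne hij, Function.update_self]
      have Zj : Z j = fun b => t b - x b := by rw [hZ, Function.update_self]
      have Zo : ∀ k, k ≠ i → k ≠ j → Z k = X0 k := by
        intro k hki hkj
        rw [hZ, Function.update_of_ne hkj, Function.update_of_ne hki, er_o i j k hki hkj X0]
      have hle : ∀ b, x b ≤ t b := by
        intro b
        have := hxt b
        rw [Finset.mem_range] at this
        omega
      show Z ∈ ((TabF (tr r i j) c).filter (fun X => er i j X = er i j X0) : Finset (α → β → ℕ))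
      rw [Finset.mem_filter, mem_TabF]
      refine ⟨⟨fun k => ?_, fun b => ?_⟩, ?_⟩
      · by_cases hki : k = i
        · rw [hki, Zi, tr_i r i j hij]; exact hxs
        · by_cases hkj : k = j
          · rw [hkj, Zj, tr_j]
            have e1 : ∑ b, (t b - x b) + ∑ b, x b = ∑ b, t b := by
              rw [← Finset.sum_add_distrib]
              apply Finset.sum_congr rfl
              intro b _
              have := hle b
              omega
            rw [hxs, hT] at e1
            show ∑ b, (t b - x b) = r j + 1
            omega
          · rw [Zo k hki hkj, tr_o r i j k hki hkj]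
            exact hX0.1 k
      · rw [sum_two (fun k => Z k b) hij]
        have e1 : Z i b = x b := by rw [Zi]
        have e2 : Z j b = t b - x b := by rw [Zj]
        have e3 : ∑ k ∈ (univ.erase i).erase j, Z k b = ∑ k ∈ (univ.erase i).erase j, X0 k b := by
          apply Finset.sum_congr rfl
          intro k hk
          rw [Finset.mem_erase, Finset.mem_erase] at hk
          rw [Zo k hk.2.1 hk.1]
        have e4 := hX0.2 b
        rw [sum_two (fun k => X0 k b) hij] at e4
        have := hle b
        have e5 : t b = X0 i b + X0 j b := rfl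
        simp only [e1, e2, e3]
        omega
      · funext k
        by_cases hkj : k = j
        · rw [hkj, er_j, er_j]
        · by_cases hki : k = i
          · rw [hki, er_i i j hij, er_i i j hij]
          · rw [er_o i j k hki hkj, er_o i j k hki hkj, Zo k hki hkj]
    · intro x _ x' _ hxx
      have := congrFun hxx i
      simp only at this
      rw [Function.update_of_ne hij, Function.update_self, Function.update_of_ne hij,
        Function.update_self] at this
      exact this
  exact hA.trans ((Acnt_le t (r i) (r j) hT h).trans hB)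

/-- Abstract balancing. -/
theorem balance (A : Finset α) (F : (α → ℕ) → ℕ)
    (hF : ∀ r i j, i ∈ A → j ∈ A → r j < r i → F r ≤ F (tr r i j)) (m : ℕ) (r0 : α → ℕ)
    (hr0 : ∀ i ∈ A, r0 i = m) :
    ∀ (k : ℕ) (r : α → ℕ), (∀ i, i ∉ A → r i = r0 i) → ∑ i ∈ A, r i = ∑ i ∈ A, r0 i →
      ∑ i ∈ A, (r i - m) ≤ k → F r ≤ F r0 := by
  intro k
  induction k with
  | zero =>
    intro r hout hsum hk
    have h1 : ∀ i ∈ A, r i ≤ m := by
      intro i hi
      have : r i - m ≤ ∑ i ∈ A, (r i - m) :=
        Finset.single_le_sum (f := fun i => r i - m) (fun _ _ => Nat.zero_le _) hi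
      omega
    have h2 : ∀ i ∈ A, r i = r0 i := by
      have : ∀ i ∈ A, r i ≤ r0 i := fun i hi => by rw [hr0 i hi]; exact h1 i hi
      exact (Finset.sum_eq_sum_iff_of_le this).mp hsum
    have : r = r0 := by
      funext i
      by_cases hi : i ∈ A
      · exact h2 i hi
      · exact hout i hi
    rw [this]
  | succ k ih =>
    intro r hout hsum hk
    by_cases hle : ∑ i ∈ A, (r i - m) ≤ k
    · exact ih r hout hsum hle
    · push Not at hle
      -- there is i with r i > m
      obtain ⟨i, hi, him⟩ : ∃ i ∈ A, m < r i := by
        by_contra hcon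
        push Not at hcon
        have : ∑ i ∈ A, (r i - m) = 0 := Finset.sum_eq_zero (fun i hi => by
          have := hcon i hi; omega)
        omega
      obtain ⟨j, hj, hjm⟩ : ∃ j ∈ A, r j < m := by
        by_contra hcon
        push Not at hcon
        have : ∑ i ∈ A, r0 i < ∑ i ∈ A, r i := by
          apply Finset.sum_lt_sum
          · intro i hi; rw [hr0 i hi]; exact hcon i hi
          · exact ⟨i, hi, by rw [hr0 i hi]; exact him⟩
        omega
      have hij : i ≠ j := by intro e; subst e; omega
      refine (hF r i j hi hj (by omega)).trans (ih (tr r i j) ?_ ?_ ?_)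
      · intro x hx
        rw [tr_o r i j x (fun e => hx (e ▸ hi)) (fun e => hx (e ▸ hj))]
        exact hout x hx
      · rw [← hsum]
        rw [← Finset.add_sum_erase A _ hi, ← Finset.add_sum_erase A r hi,
          ← Finset.add_sum_erase (A.erase i) _ (Finset.mem_erase.mpr ⟨hij.symm, hj⟩),
          ← Finset.add_sum_erase (A.erase i) r (Finset.mem_erase.mpr ⟨hij.symm, hj⟩),
          tr_i r i j hij, tr_j]
        have e : ∑ x ∈ (A.erase i).erase j, tr r i j x = ∑ x ∈ (A.erase i).erase j, r x := by
          apply Finset.sum_congr rfl
          intro x hx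
          rw [Finset.mem_erase, Finset.mem_erase] at hx
          rw [tr_o r i j x hx.2.1 hx.1]
        rw [e]; omega
      · have e0 : ∑ x ∈ A, (r x - m) ≤ k + 1 := hk
        rw [← Finset.add_sum_erase A _ hi,
          ← Finset.add_sum_erase (A.erase i) _ (Finset.mem_erase.mpr ⟨hij.symm, hj⟩)] at e0 ⊢
        rw [tr_i r i j hij, tr_j]
        have e : ∑ x ∈ (A.erase i).erase j, (tr r i j x - m) = ∑ x ∈ (A.erase i).erase j, (r x - m) := by
          apply Finset.sum_congr rfl
          intro x hx
          rw [Finset.mem_erase, Finset.mem_erase] at hx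
          rw [tr_o r i j x hx.2.1 hx.1]
        rw [e]; omega

end Pool.Agent.R974.CT
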