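import Mathlib
import Pool.Agent.R974.CT.V

/-! Lower bound for the number of tables with two-valued margins. -/

namespace Pool.Agent.R974.CT

open Finset

set_option linter.unusedSectionVars false

variable {α β : Type*} [Fintype α] [DecidableEq α] [Fintype β] [DecidableEq β]

/-- two-valued margins -/
def marg (A : Finset α) (R s : ℕ) (i : α) : ℕ := if i ∈ A then R else s

theorem bal2 (A : Finset α) (R s : ℕ) (c : β → ℕ) (r : α → ℕ)
    (h1 : ∑ i ∈ A, r i = ∑ i ∈ A, marg A R s i)
    (h2 : ∑ i ∈ Aᶜ, r i = ∑ i ∈ Aᶜ, marg A R s i) :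
    (TabF r c).card ≤ (TabF (marg A R s) c).card := by
  set r1 : α → ℕ := fun i => if i ∈ A then R else r i with hr1
  have b1 : (TabF r c).card ≤ (TabF r1 c).card := by
    apply balance A (fun r => (TabF r c).card) (fun r i j _ _ h => transfer r c i j h) R r1
      (fun i hi => by rw [hr1]; simp [hi]) _ r (fun i hi => by rw [hr1]; simp [hi]) ?_ (le_refl _)
    rw [h1]
    apply Finset.sum_congr rfl
    intro i hi
    rw [hr1]; unfold marg; simp [hi]
  have b2 : (TabF r1 c).card ≤ (TabF (marg A R s) c).card := by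
    apply balance Aᶜ (fun r => (TabF r c).card) (fun r i j _ _ h => transfer r c i j h) s (marg A R s)
      (fun i hi => by
        rw [Finset.mem_compl] at hi
        unfold marg; simp [hi]) _ r1 (fun i hi => by
        rw [Finset.mem_compl, not_not] at hi
        rw [hr1]; unfold marg; simp [hi]) ?_ (le_refl _)
    rw [← h2]
    apply Finset.sum_congr rfl
    intro i hi
    rw [Finset.mem_compl] at hi
    rw [hr1]; simp [hi]
  exact b1.trans b2

theorem card_swap (r : α → ℕ) (c : β → ℕ) : (TabF r c).card = (TabF c r).card := by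
  apply Finset.card_nbij' (fun X i j => X j i) (fun X i j => X j i)
  · intro X hX
    rw [Finset.mem_coe, mem_TabF] at hX
    rw [Finset.mem_coe, mem_TabF]
    exact ⟨hX.2, hX.1⟩
  · intro X hX
    rw [Finset.mem_coe, mem_TabF] at hX
    rw [Finset.mem_coe, mem_TabF]
    exact ⟨hX.2, hX.1⟩
  · intro X _; rfl
  · intro X _; rfl

/-- Any finite set of matrices with the right group margins is not much larger than the set of
tables. -/
theorem group_le (A : Finset α) (R s : ℕ) (G : Finset (α → α → ℕ))
    (hG : ∀ X ∈ G, (∑ i ∈ A, ∑ j, X i j = ∑ i ∈ A, marg A R s i) ∧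
      (∑ i ∈ Aᶜ, ∑ j, X i j = ∑ i ∈ Aᶜ, marg A R s i) ∧
      (∑ j ∈ A, ∑ i, X i j = ∑ i ∈ A, marg A R s i) ∧
      (∑ j ∈ Aᶜ, ∑ i, X i j = ∑ i ∈ Aᶜ, marg A R s i)) :
    G.card ≤ ((∑ i, marg A R s i + 1)^(Fintype.card α) * (∑ i, marg A R s i + 1)^(Fintype.card α)) *
      (TabF (marg A R s) (marg A R s)).card := by
  classical
  set Tot := ∑ i, marg A R s i with hTot
  set V : Finset ((α → ℕ) × (α → ℕ)) :=
    (Fintype.piFinset (fun _ : α => range (Tot+1))) ×ˢ (Fintype.piFinset (fun _ : α => range (Tot+1))) with hV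
  have hTot2 : ∑ i ∈ A, marg A R s i + ∑ i ∈ Aᶜ, marg A R s i = Tot := Finset.sum_add_sum_compl A _
  have hmaps : ∀ X ∈ G, ((fun i => ∑ j, X i j, fun j => ∑ i, X i j) : (α → ℕ) × (α → ℕ)) ∈ V := by
    intro X hX
    obtain ⟨g1, g2, g3, g4⟩ := hG X hX
    rw [hV, Finset.mem_product, Fintype.mem_piFinset, Fintype.mem_piFinset]
    constructor
    · intro i
      rw [Finset.mem_range]
      have e : ∑ i, ∑ j, X i j = Tot := by
        rw [← Finset.sum_add_sum_compl A, g1, g2, hTot2]
      have := Finset.single_le_sum (f := fun i => ∑ j, X i j) (fun _ _ => Nat.zero_le _) (Finset.mem_univ i)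
      exact Nat.lt_succ_of_le (this.trans e.le)
    · intro i
      rw [Finset.mem_range]
      have e : ∑ j, ∑ i, X i j = Tot := by
        rw [← Finset.sum_add_sum_compl A, g3, g4, hTot2]
      have := Finset.single_le_sum (f := fun j => ∑ i, X i j) (fun _ _ => Nat.zero_le _) (Finset.mem_univ i)
      exact Nat.lt_succ_of_le (this.trans e.le)
  rw [Finset.card_eq_sum_card_fiberwise hmaps]
  have hcardV : V.card = (Tot+1)^(Fintype.card α) * (Tot+1)^(Fintype.card α) := by
    rw [hV, Finset.card_product, Fintype.card_piFinset]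
    simp
  rw [← hcardV, ← smul_eq_mul, ← Finset.sum_const]
  apply Finset.sum_le_sum
  rintro ⟨r', c'⟩ _
  by_cases hne : (G.filter (fun X => ((fun i => ∑ j, X i j, fun j => ∑ i, X i j) : (α → ℕ) × (α → ℕ)) = (r', c'))).Nonempty
  · obtain ⟨X0, hX0⟩ := hne
    rw [Finset.mem_filter] at hX0
    obtain ⟨g1, g2, g3, g4⟩ := hG X0 hX0.1
    have er' : r' = fun i => ∑ j, X0 i j := (congrArg Prod.fst hX0.2).symm
    have ec' : c' = fun j => ∑ i, X0 i j := (congrArg Prod.snd hX0.2).symm
    have hsub : (G.filter (fun X => ((fun i => ∑ j, X i j, fun j => ∑ i, X i j) : (α → ℕ) × (α → ℕ)) = (r', c'))) ⊆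
        TabF r' c' := by
      intro X hX
      rw [Finset.mem_filter] at hX
      rw [mem_TabF]
      exact ⟨fun i => congrFun (congrArg Prod.fst hX.2) i, fun j => congrFun (congrArg Prod.snd hX.2) j⟩
    calc _ ≤ (TabF r' c').card := Finset.card_le_card hsub
      _ ≤ (TabF (marg A R s) c').card := bal2 A R s c' r' (by rw [er']; exact g1) (by rw [er']; exact g2)
      _ = (TabF c' (marg A R s)).card := card_swap _ _
      _ ≤ (TabF (marg A R s) (marg A R s)).card :=
          bal2 A R s (marg A R s) c' (by rw [ec']; exact g3) (by rw [ec']; exact g4)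
  · rw [Finset.not_nonempty_iff_eq_empty] at hne
    rw [hne, Finset.card_empty]; exact Nat.zero_le _

/-! ### counting matrices with prescribed block sums -/

/-- number of functions on a finite type with prescribed sum -/
theorem card_sum (ι : Type*) [Fintype ι] (w : ℕ) :
    Nat.card {P : ι → ℕ // ∑ i, P i = w} = Nat.multichoose (Fintype.card ι) w := by
  classical
  rw [← Nat.card_congr (Sym.equivNatSumOfFintype ι w), Sym.natCard_sym_eq_multichoose,
    Nat.card_eq_fintype_card]

/-- functions with prescribed sums on the fibres of a colouring -/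
theorem card_fibres {ι κ : Type*} [Fintype ι] [Fintype κ] [DecidableEq κ] (χ : ι → κ) (w : κ → ℕ) :
    Nat.card {X : ι → ℕ // ∀ k, ∑ i ∈ univ.filter (fun i => χ i = k), X i = w k} =
      ∏ k, Nat.multichoose ((univ.filter (fun i => χ i = k)).card) (w k) := by
  classical
  have e : {X : ι → ℕ // ∀ k, ∑ i ∈ univ.filter (fun i => χ i = k), X i = w k} ≃
      ((k : κ) → {P : {i // χ i = k} → ℕ // ∑ i, P i = w k}) :=
    { toFun := fun X k => ⟨fun i => X.1 i.1, by
        rw [← X.2 k]
        exact (Finset.sum_subtype (univ.filter (fun i => χ i = k)) (by simp) X.1).symm⟩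
      invFun := fun Y => ⟨fun i => (Y (χ i)).1 ⟨i, rfl⟩, by
        intro k
        rw [← (Y k).2, Finset.sum_subtype (univ.filter (fun i => χ i = k)) (p := fun i => χ i = k) (by simp)]
        apply Finset.sum_congr rfl
        rintro ⟨i, hi⟩ _
        subst hi
        rfl⟩
      left_inv := fun X => rfl
      right_inv := fun Y => by
        funext k
        apply Subtype.ext
        funext ⟨i, hi⟩
        subst hi
        rfl }
  rw [Nat.card_congr e, Nat.card_pi]
  apply Finset.prod_congr rfl
  intro k _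
  rw [card_sum]
  congr 1
  rw [Fintype.card_subtype]

end Pool.Agent.R974.CT
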