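import Mathlib
import Pool.Agent.R974.CT.W

/-! Block counts. -/

namespace Pool.Agent.R974.CT

open Finset

set_option linter.unusedSectionVars false

variable {α : Type*} [Fintype α] [DecidableEq α]

/-- colours of cells -/
def chi (A I : Finset α) (p : α × α) : Fin 5 :=
  if p.2 ∈ A then (if p.1 ∈ A then 0 else 1) else (if p.1 ∈ I then 2 else if p.1 ∈ A then 3 else 4)

/-- matrices with prescribed block sums -/
def BS (A I : Finset α) (w0 w1 w2 w3 w4 : ℕ) : Finset (α → α → ℕ) :=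
  (Fintype.piFinset (fun _ : α => Fintype.piFinset (fun _ : α => range (w0+w1+w2+w3+w4+1)))).filter
    (fun X => ∑ i ∈ A, ∑ j ∈ A, X i j = w0 ∧ ∑ i ∈ Aᶜ, ∑ j ∈ A, X i j = w1 ∧
      ∑ i ∈ I, ∑ j ∈ Aᶜ, X i j = w2 ∧ ∑ i ∈ A \ I, ∑ j ∈ Aᶜ, X i j = w3 ∧
      ∑ i ∈ Aᶜ, ∑ j ∈ Aᶜ, X i j = w4)

theorem total_split (A I : Finset α) (hI : I ⊆ A) (X : α → α → ℕ) :
    ∑ i, ∑ j, X i j = ∑ i ∈ A, ∑ j ∈ A, X i j + ∑ i ∈ Aᶜ, ∑ j ∈ A, X i j +
      ∑ i ∈ I, ∑ j ∈ Aᶜ, X i j + ∑ i ∈ A \ I, ∑ j ∈ Aᶜ, X i j + ∑ i ∈ Aᶜ, ∑ j ∈ Aᶜ, X i j := by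
  have h1 : ∀ i, ∑ j, X i j = ∑ j ∈ A, X i j + ∑ j ∈ Aᶜ, X i j := fun i =>
    (Finset.sum_add_sum_compl A _).symm
  have h2 : ∑ i ∈ A, ∑ j ∈ Aᶜ, X i j = ∑ i ∈ I, ∑ j ∈ Aᶜ, X i j + ∑ i ∈ A \ I, ∑ j ∈ Aᶜ, X i j := by
    rw [add_comm, Finset.sum_sdiff hI]
  rw [← Finset.sum_add_sum_compl A]
  simp_rw [h1]
  rw [Finset.sum_add_distrib, Finset.sum_add_distrib, h2]
  ring

theorem mem_BS {A I : Finset α} (hI : I ⊆ A) {w0 w1 w2 w3 w4 : ℕ} {X : α → α → ℕ} :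
    X ∈ BS A I w0 w1 w2 w3 w4 ↔ (∑ i ∈ A, ∑ j ∈ A, X i j = w0 ∧ ∑ i ∈ Aᶜ, ∑ j ∈ A, X i j = w1 ∧
      ∑ i ∈ I, ∑ j ∈ Aᶜ, X i j = w2 ∧ ∑ i ∈ A \ I, ∑ j ∈ Aᶜ, X i j = w3 ∧
      ∑ i ∈ Aᶜ, ∑ j ∈ Aᶜ, X i j = w4) := by
  unfold BS
  rw [Finset.mem_filter]
  constructor
  · exact fun h => h.2
  · intro h
    refine ⟨?_, h⟩
    have ht := total_split A I hI X
    obtain ⟨h0, h1, h2, h3, h4⟩ := h
    rw [h0, h1, h2, h3, h4] at ht
    rw [Fintype.mem_piFinset]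
    intro i
    rw [Fintype.mem_piFinset]
    intro j
    rw [Finset.mem_range, ← ht]
    have e1 := Finset.single_le_sum (f := fun i => ∑ j, X i j) (fun _ _ => Nat.zero_le _) (Finset.mem_univ i)
    have e2 := Finset.single_le_sum (f := fun j => X i j) (fun _ _ => Nat.zero_le _) (Finset.mem_univ j)
    exact Nat.lt_succ_of_le (e2.trans e1)

theorem filt0 (A I : Finset α) : univ.filter (fun p : α × α => chi A I p = 0) = A ×ˢ A := by
  ext ⟨i, j⟩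
  rw [Finset.mem_filter, Finset.mem_product]; unfold chi
  by_cases h1 : j ∈ A <;> by_cases h2 : i ∈ A <;> by_cases h3 : i ∈ I <;> simp [h1, h2, h3]

theorem filt1 (A I : Finset α) : univ.filter (fun p : α × α => chi A I p = 1) = Aᶜ ×ˢ A := by
  ext ⟨i, j⟩
  rw [Finset.mem_filter, Finset.mem_product]; unfold chi
  by_cases h1 : j ∈ A <;> by_cases h2 : i ∈ A <;> by_cases h3 : i ∈ I <;> simp [h1, h2, h3]

theorem filt2 (A I : Finset α) : univ.filter (fun p : α × α => chi A I p = 2) = I ×ˢ Aᶜ := by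
  ext ⟨i, j⟩
  rw [Finset.mem_filter, Finset.mem_product]; unfold chi
  by_cases h1 : j ∈ A <;> by_cases h2 : i ∈ A <;> by_cases h3 : i ∈ I <;> simp [h1, h2, h3]

theorem filt3 (A I : Finset α) :
    univ.filter (fun p : α × α => chi A I p = 3) = (A \ I) ×ˢ Aᶜ := by
  ext ⟨i, j⟩
  rw [Finset.mem_filter, Finset.mem_product]; unfold chi
  by_cases h1 : j ∈ A <;> by_cases h2 : i ∈ A <;> by_cases h3 : i ∈ I <;> simp [h1, h2, h3]

theorem filt4 (A I : Finset α) (hI : I ⊆ A) :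
    univ.filter (fun p : α × α => chi A I p = 4) = Aᶜ ×ˢ Aᶜ := by
  ext ⟨i, j⟩
  rw [Finset.mem_filter, Finset.mem_product]; unfold chi
  by_cases h1 : j ∈ A <;> by_cases h2 : i ∈ A <;> by_cases h3 : i ∈ I
  all_goals first | (exact absurd (hI h3) h2) | simp [h1, h2, h3]

theorem card_BS (A I : Finset α) (hI : I ⊆ A) (w0 w1 w2 w3 w4 : ℕ) :
    (BS A I w0 w1 w2 w3 w4).card = Nat.multichoose (A.card * A.card) w0 *
      Nat.multichoose (Aᶜ.card * A.card) w1 * Nat.multichoose (I.card * Aᶜ.card) w2 *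
      Nat.multichoose ((A \ I).card * Aᶜ.card) w3 * Nat.multichoose (Aᶜ.card * Aᶜ.card) w4 := by
  have h1 := card_fibres (chi A I) (![w0, w1, w2, w3, w4] : Fin 5 → ℕ)
  rw [Fin.prod_univ_five] at h1
  simp only [filt0, filt1, filt2, filt3, filt4 A I hI, Finset.card_product] at h1
  have h2 : Nat.card {X : α × α → ℕ // ∀ k, ∑ i ∈ univ.filter (fun i => chi A I i = k), X i =
      (![w0, w1, w2, w3, w4] : Fin 5 → ℕ) k} = (BS A I w0 w1 w2 w3 w4).card := by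
    rw [← Nat.subtype_card (BS A I w0 w1 w2 w3 w4) (fun X => mem_BS hI)]
    apply Nat.card_congr
    refine (Equiv.curry α α ℕ).subtypeEquiv ?_
    intro X
    rw [Fin.forall_fin_succ, Fin.forall_fin_succ, Fin.forall_fin_succ, Fin.forall_fin_succ]
    simp only [Fin.forall_fin_one]
    have e0 : ∑ i ∈ univ.filter (fun i => chi A I i = 0), X i = ∑ i ∈ A, ∑ j ∈ A, Equiv.curry α α ℕ X i j := by
      rw [filt0, Finset.sum_product]; rfl
    have e1 : ∑ i ∈ univ.filter (fun i => chi A I i = 1), X i = ∑ i ∈ Aᶜ, ∑ j ∈ A, Equiv.curry α α ℕ X i j := by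
      rw [filt1, Finset.sum_product]; rfl
    have e2 : ∑ i ∈ univ.filter (fun i => chi A I i = 2), X i = ∑ i ∈ I, ∑ j ∈ Aᶜ, Equiv.curry α α ℕ X i j := by
      rw [filt2, Finset.sum_product]; rfl
    have e3 : ∑ i ∈ univ.filter (fun i => chi A I i = 3), X i = ∑ i ∈ A \ I, ∑ j ∈ Aᶜ, Equiv.curry α α ℕ X i j := by
      rw [filt3, Finset.sum_product]; rfl
    have e4 : ∑ i ∈ univ.filter (fun i => chi A I i = 4), X i = ∑ i ∈ Aᶜ, ∑ j ∈ Aᶜ, Equiv.curry α α ℕ X i j := by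
      rw [filt4 A I hI, Finset.sum_product]; rfl
    rw [← e0, ← e1, ← e2, ← e3, ← e4]
    exact Iff.rfl
  rw [h2] at h1
  rw [h1]
  rfl

/-- `multichoose` is super-multiplicative: gluing. -/
theorem glue (a b i j : ℕ) : Nat.multichoose a i * Nat.multichoose b j ≤ Nat.multichoose (a+b) (i+j) := by
  have h1 := card_sum (Fin a) i
  have h2 := card_sum (Fin b) j
  have h3 := card_sum (Fin a ⊕ Fin b) (i+j)
  simp only [Fintype.card_fin, Fintype.card_sum] at h1 h2 h3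
  rw [← h1, ← h2, ← h3, ← Nat.card_prod]
  have hfin : Finite {P : Fin a ⊕ Fin b → ℕ // ∑ x, P x = i + j} := by
    exact Finite.of_equiv _ (Sym.equivNatSumOfFintype (Fin a ⊕ Fin b) (i+j))
  apply Nat.card_le_card_of_injective (fun PQ : {P : Fin a → ℕ // ∑ x, P x = i} × {P : Fin b → ℕ // ∑ x, P x = j} =>
    (⟨Sum.elim PQ.1.1 PQ.2.1, by
      rw [Fintype.sum_sum_type]
      simp only [Sum.elim_inl, Sum.elim_inr]
      rw [PQ.1.2, PQ.2.2]⟩ : {P : Fin a ⊕ Fin b → ℕ // ∑ x, P x = i + j}))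
  rintro ⟨⟨P, hP⟩, ⟨Q, hQ⟩⟩ ⟨⟨P', hP'⟩, ⟨Q', hQ'⟩⟩ h
  have h' : Sum.elim P Q = Sum.elim P' Q' := congrArg Subtype.val h
  have e1 : P = P' := by
    funext x; exact congrFun h' (Sum.inl x)
  have e2 : Q = Q' := by
    funext x; exact congrFun h' (Sum.inr x)
  subst e1; subst e2; rfl

/-- ratio of consecutive values -/
theorem mc_ratio (M w : ℕ) : ((w:ℝ)+1) * (Nat.multichoose M (w+1) : ℝ) =
    ((M:ℝ)+w) * (Nat.multichoose M w : ℝ) := by
  rcases M with _ | M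
  · rw [Nat.multichoose_zero_succ]
    rcases w with _ | w
    · simp
    · rw [Nat.multichoose_zero_succ]; simp
  · have e1 : M + 1 + (w+1) - 1 = (M + w) + 1 := by omega
    have e2 : M + 1 + w - 1 = M + w := by omega
    rw [Nat.multichoose_eq, Nat.multichoose_eq, e1, e2]
    have h := Nat.add_one_mul_choose_eq (M+w) w
    have h' : ((M+w+1 : ℕ):ℝ) * ((M+w).choose w : ℝ) = ((M+w+1).choose (w+1) : ℝ) * ((w+1:ℕ):ℝ) := by
      exact_mod_cast h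
    push_cast at h' ⊢
    linarith

/-- geometric decay -/
theorem decay (a : ℕ → ℝ) {ρ : ℝ} (h0 : 0 ≤ ρ) (h1 : ρ ≤ 1) (ha : ∀ k, 0 ≤ a k) (k0 k1 m : ℕ)
    (h : ∀ k, k0 ≤ k → k < k1 → a (k+1) ≤ ρ * a k) :
    ∀ k, k0 + m ≤ k → k ≤ k1 → a k ≤ ρ^m * a k0 := by
  have key : ∀ j, k0 + j ≤ k1 → a (k0 + j) ≤ ρ^j * a k0 := by
    intro j
    induction j with
    | zero => intro _; simp
    | succ j ih =>
      intro hj
      have h2 := h (k0+j) (by omega) (by omega)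
      have h3 := ih (by omega)
      calc a (k0 + (j+1)) ≤ ρ * a (k0+j) := h2
        _ ≤ ρ * (ρ^j * a k0) := mul_le_mul_of_nonneg_left h3 h0
        _ = ρ^(j+1) * a k0 := by ring
  intro k hk hk1
  obtain ⟨j, rfl⟩ : ∃ j, k = k0 + j := ⟨k - k0, by omega⟩
  refine (key j hk1).trans ?_
  apply mul_le_mul_of_nonneg_right _ (ha _)
  exact pow_le_pow_of_le_one h0 h1 (by omega)

end Pool.Agent.R974.CT
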