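import Mathlib
import Pool.Agent.R974.CT.Y

/-! Comparison of block counts. -/

namespace Pool.Agent.R974.CT

open Finset

set_option linter.unusedSectionVars false

variable {α : Type*} [Fintype α] [DecidableEq α]

/-- real-valued multichoose -/
noncomputable def mc (M w : ℕ) : ℝ := (Nat.multichoose M w : ℝ)

theorem mc_nonneg (M w : ℕ) : 0 ≤ mc M w := Nat.cast_nonneg _

theorem mc_rat (M w : ℕ) : ((w:ℝ)+1) * mc M (w+1) = ((M:ℝ)+w) * mc M w := mc_ratio M w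

theorem mc_rat' (M u : ℕ) (hu : 0 < u) : (u:ℝ) * mc M u = ((M:ℝ)+u-1) * mc M (u-1) := by
  obtain ⟨v, rfl⟩ : ∃ v, u = v + 1 := ⟨u - 1, by omega⟩
  have := mc_rat M v
  have e : v + 1 - 1 = v := by omega
  rw [e]; push_cast; linarith

/-- the main count at big-small total `w` -/
noncomputable def Gc (D E F TB TS w : ℕ) : ℝ := mc D (TB-w) * mc E w * mc E w * mc F (TS-w)

theorem Gc_nonneg (D E F TB TS w : ℕ) : 0 ≤ Gc D E F TB TS w :=
  mul_nonneg (mul_nonneg (mul_nonneg (mc_nonneg _ _) (mc_nonneg _ _)) (mc_nonneg _ _)) (mc_nonneg _ _)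

theorem frac_mono {a u ub : ℝ} (ha : 0 ≤ a) (hu : 0 < u) (hub : u ≤ ub) : u/(a+u) ≤ ub/(a+ub) := by
  rw [div_le_div_iff₀ (by linarith) (by linarith)]
  nlinarith

theorem prod_step {a b c A1 A2 A3 ρ : ℝ} (pa : 0 ≤ a) (pb : 0 ≤ b) (pc : 0 ≤ c)
    (h : A2^2 * A1 * A3 ≤ ρ) : A1 * a * (A2 * b) * (A2 * b) * (A3 * c) ≤ ρ * (a * b * b * c) := by
  calc A1 * a * (A2 * b) * (A2 * b) * (A3 * c) = (A2^2 * A1 * A3) * (a * b * b * c) := by ring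
    _ ≤ ρ * (a * b * b * c) := mul_le_mul_of_nonneg_right h (by positivity)

theorem prod_bd {A1 A2 A3 B1 B2 B3 ρ : ℝ} (n1 : 0 ≤ A1) (n2 : 0 ≤ A2) (n3 : 0 ≤ A3)
    (g1 : A1 ≤ B1) (g2 : A2 ≤ B2) (g3 : A3 ≤ B3) (h : B2^2 * B1 * B3 ≤ ρ) : A2^2 * A1 * A3 ≤ ρ := by
  refine le_trans ?_ h
  apply mul_le_mul _ g3 n3 _
  · apply mul_le_mul _ g1 n1 (by positivity)
    exact pow_le_pow_left₀ n2 g2 2
  · apply mul_nonneg (by positivity)
    exact n1.trans g1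

/-- decreasing argument -/
theorem dec_eq (D TB w : ℕ) (hD : 1 ≤ D) (h2 : w < TB) :
    mc D (TB-(w+1)) = (((TB:ℝ)-w)/(((D:ℝ)-1)+((TB:ℝ)-w))) * mc D (TB-w) := by
  have a1 := mc_rat' D (TB-w) (by omega)
  have e1 : TB - w - 1 = TB - (w+1) := by omega
  rw [e1, Nat.cast_sub h2.le] at a1
  have hD' : (1:ℝ) ≤ D := by exact_mod_cast hD
  have hw' : (w:ℝ) < TB := by exact_mod_cast h2
  have : 0 < ((D:ℝ)-1)+((TB:ℝ)-w) := by linarith
  rw [div_mul_eq_mul_div, eq_div_iff this.ne', a1]; ring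

theorem inc_eq (E w : ℕ) : mc E (w+1) = (((E:ℝ)+w)/((w:ℝ)+1)) * mc E w := by
  have a2 := mc_rat E w
  have : 0 < (w:ℝ)+1 := by positivity
  rw [div_mul_eq_mul_div, eq_div_iff this.ne', ← a2]; ring

theorem Gc_step (D E F TB TS w wb : ℕ) (ρ : ℝ) (hD : 1 ≤ D) (hF : 1 ≤ F) (hwb : 0 < wb)
    (h1 : wb ≤ w) (h2 : w < TB) (h3 : w < TS)
    (hnum : (((E:ℝ)+wb)/wb)^2 * (((TB:ℝ)-wb)/(((D:ℝ)-1)+((TB:ℝ)-wb))) *
      (((TS:ℝ)-wb)/(((F:ℝ)-1)+((TS:ℝ)-wb))) ≤ ρ) :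
    Gc D E F TB TS (w+1) ≤ ρ * Gc D E F TB TS w := by
  unfold Gc
  rw [dec_eq D TB w hD h2, dec_eq F TS w hF h3, inc_eq E w]
  have hD' : (1:ℝ) ≤ D := by exact_mod_cast hD
  have hF' : (1:ℝ) ≤ F := by exact_mod_cast hF
  have hw' : (w:ℝ) < TB := by exact_mod_cast h2
  have hw'' : (w:ℝ) < TS := by exact_mod_cast h3
  have hwb' : (0:ℝ) < wb := by exact_mod_cast hwb
  have hwbw : (wb:ℝ) ≤ w := by exact_mod_cast h1
  have hE : (0:ℝ) ≤ E := Nat.cast_nonneg _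
  apply prod_step (mc_nonneg _ _) (mc_nonneg _ _) (mc_nonneg _ _)
  have g1 : ((TB:ℝ)-w)/(((D:ℝ)-1)+((TB:ℝ)-w)) ≤ ((TB:ℝ)-wb)/(((D:ℝ)-1)+((TB:ℝ)-wb)) :=
    frac_mono (by linarith) (by linarith) (by linarith)
  have g3 : ((TS:ℝ)-w)/(((F:ℝ)-1)+((TS:ℝ)-w)) ≤ ((TS:ℝ)-wb)/(((F:ℝ)-1)+((TS:ℝ)-wb)) :=
    frac_mono (by linarith) (by linarith) (by linarith)
  have g2 : ((E:ℝ)+w)/((w:ℝ)+1) ≤ ((E:ℝ)+wb)/wb := by
    rw [div_le_div_iff₀ (by linarith) hwb']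
    nlinarith
  exact prod_bd (div_nonneg (by linarith) (by linarith)) (div_nonneg (by linarith) (by linarith))
    (div_nonneg (by linarith) (by linarith)) g1 g2 g3 hnum

theorem T_step (H w w0 w1 : ℕ) (ρ y0 : ℝ) (hH : 1 ≤ H) (hw0 : 0 < w0) (h1 : w0 ≤ w1) (h2 : w1 < w)
    (hy0 : (w:ℝ) - w0 ≤ y0)
    (hnum : (((H:ℝ)+w0)/w0) * (y0/(((H:ℝ)-1)+y0)) ≤ ρ) :
    mc H (w1+1) * mc H (w-(w1+1)) ≤ ρ * (mc H w1 * mc H (w-w1)) := by
  rw [dec_eq H w w1 hH h2, inc_eq H w1]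
  have hH' : (1:ℝ) ≤ H := by exact_mod_cast hH
  have hw' : (w1:ℝ) < w := by exact_mod_cast h2
  have hw0' : (0:ℝ) < w0 := by exact_mod_cast hw0
  have hww : (w0:ℝ) ≤ w1 := by exact_mod_cast h1
  have pa : 0 ≤ mc H (w-w1) := mc_nonneg _ _
  have pb : 0 ≤ mc H w1 := mc_nonneg _ _
  have g1 : ((w:ℝ)-w1)/(((H:ℝ)-1)+((w:ℝ)-w1)) ≤ y0/(((H:ℝ)-1)+y0) :=
    frac_mono (by linarith) (by linarith) (by linarith)
  have g2 : ((H:ℝ)+w1)/((w1:ℝ)+1) ≤ ((H:ℝ)+w0)/w0 := by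
    rw [div_le_div_iff₀ (by linarith) hw0']
    nlinarith
  have n1 : 0 ≤ ((w:ℝ)-w1)/(((H:ℝ)-1)+((w:ℝ)-w1)) := div_nonneg (by linarith) (by linarith)
  have n2 : 0 ≤ ((H:ℝ)+w1)/((w1:ℝ)+1) := div_nonneg (by linarith) (by linarith)
  calc ((H:ℝ)+w1)/((w1:ℝ)+1) * mc H w1 * (((w:ℝ)-w1)/(((H:ℝ)-1)+((w:ℝ)-w1)) * mc H (w-w1))
      = (((H:ℝ)+w1)/((w1:ℝ)+1) * (((w:ℝ)-w1)/(((H:ℝ)-1)+((w:ℝ)-w1)))) * (mc H w1 * mc H (w-w1)) := by ring
    _ ≤ ρ * (mc H w1 * mc H (w-w1)) := by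
        apply mul_le_mul_of_nonneg_right _ (mul_nonneg pb pa)
        refine le_trans ?_ hnum
        exact mul_le_mul g2 g1 n1 (n2.trans g2)

theorem marg_sum_A (A : Finset α) (R s : ℕ) : ∑ i ∈ A, marg A R s i = A.card * R := by
  rw [Finset.sum_congr rfl (fun i hi => by unfold marg; rw [if_pos hi] : ∀ i ∈ A, marg A R s i = R)]
  simp

theorem marg_sum_Ac (A : Finset α) (R s : ℕ) : ∑ i ∈ Aᶜ, marg A R s i = Aᶜ.card * s := by
  rw [Finset.sum_congr rfl (fun i hi => by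
    unfold marg; rw [if_neg (Finset.mem_compl.mp hi)] : ∀ i ∈ Aᶜ, marg A R s i = s)]
  simp

/-- the number of tables -/
noncomputable def TT (A : Finset α) (R s : ℕ) : ℝ := ((TabF (marg A R s) (marg A R s)).card : ℝ)

/-- the entropy loss -/
noncomputable def vec (A : Finset α) (R s : ℕ) : ℝ :=
  (((A.card * R + Aᶜ.card * s + 1)^(2 * Fintype.card α) : ℕ) : ℝ)

theorem Gc_le (A : Finset α) (R s w : ℕ) (h1 : w ≤ A.card * R) (h2 : w ≤ Aᶜ.card * s) :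
    Gc (A.card * A.card) (A.card * Aᶜ.card) (Aᶜ.card * Aᶜ.card) (A.card * R) (Aᶜ.card * s) w ≤
      vec A R s * TT A R s := by
  have hBS := card_BS A A (Finset.Subset.refl A) (A.card * R - w) w w 0 (Aᶜ.card * s - w)
  have hg := group_le A R s (BS A A (A.card * R - w) w w 0 (Aᶜ.card * s - w)) (by
    intro X hX
    rw [mem_BS (Finset.Subset.refl A)] at hX
    obtain ⟨x0, x1, x2, x3, x4⟩ := hX
    rw [marg_sum_A, marg_sum_Ac]
    have hs1 : ∀ i, ∑ j, X i j = ∑ j ∈ A, X i j + ∑ j ∈ Aᶜ, X i j := fun i =>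
      (Finset.sum_add_sum_compl A _).symm
    have hs2 : ∀ j, ∑ i, X i j = ∑ i ∈ A, X i j + ∑ i ∈ Aᶜ, X i j := fun j =>
      (Finset.sum_add_sum_compl A _).symm
    refine ⟨?_, ?_, ?_, ?_⟩
    · simp_rw [hs1]
      rw [Finset.sum_add_distrib, x0, x2]; omega
    · simp_rw [hs1]
      rw [Finset.sum_add_distrib, x1, x4]; omega
    · simp_rw [hs2]
      rw [Finset.sum_add_distrib, Finset.sum_comm, x0]
      have : ∑ j ∈ A, ∑ i ∈ Aᶜ, X i j = w := by rw [Finset.sum_comm]; exact x1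
      rw [this]; omega
    · simp_rw [hs2]
      have e1 : ∑ j ∈ Aᶜ, ∑ i ∈ A, X i j = w := by rw [Finset.sum_comm]; exact x2
      have e2 : ∑ j ∈ Aᶜ, ∑ i ∈ Aᶜ, X i j = Aᶜ.card * s - w := by rw [Finset.sum_comm]; exact x4
      rw [Finset.sum_add_distrib, e1, e2]; omega)
  have htot : ∑ i, marg A R s i = A.card * R + Aᶜ.card * s := by
    rw [← Finset.sum_add_sum_compl A, marg_sum_A, marg_sum_Ac]
  rw [htot, hBS, Finset.sdiff_self, Finset.card_empty, zero_mul, Nat.multichoose_zero_right, mul_one,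
    ← pow_add, ← two_mul] at hg
  have hg' : ((Nat.multichoose (A.card * A.card) (A.card * R - w) * Nat.multichoose (Aᶜ.card * A.card) w *
      Nat.multichoose (A.card * Aᶜ.card) w * Nat.multichoose (Aᶜ.card * Aᶜ.card) (Aᶜ.card * s - w) : ℕ) : ℝ) ≤
      (((A.card * R + Aᶜ.card * s + 1)^(2 * Fintype.card α) *
        (TabF (marg A R s) (marg A R s)).card : ℕ) : ℝ) := by
    exact_mod_cast hg
  unfold Gc mc vec TT
  rw [Nat.cast_mul] at hg'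
  push_cast at hg' ⊢
  rw [mul_comm Aᶜ.card A.card] at hg'
  exact hg'

/-- tables whose `I` rows carry mass at least `t` in the small columns -/
def BadI (A I : Finset α) (R s t : ℕ) : Finset (α → α → ℕ) :=
  (TabF (marg A R s) (marg A R s)).filter (fun X => t ≤ ∑ i ∈ I, ∑ j ∈ Aᶜ, X i j)

theorem BadI_sub (A I : Finset α) (hI : I ⊆ A) (R s t : ℕ) :
    BadI A I R s t ⊆ (range (A.card * R + 1) ×ˢ range (A.card * R + 1)).biUnion
      (fun p => if p.1 ≤ Aᶜ.card * s ∧ t ≤ p.2 ∧ p.2 ≤ p.1 then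
        BS A I (A.card * R - p.1) p.1 p.2 (p.1 - p.2) (Aᶜ.card * s - p.1) else ∅) := by
  intro X hX
  unfold BadI at hX
  rw [Finset.mem_filter, mem_TabF] at hX
  obtain ⟨⟨hr, hc⟩, ht⟩ := hX
  have hs1 : ∀ i, ∑ j, X i j = ∑ j ∈ A, X i j + ∑ j ∈ Aᶜ, X i j := fun i =>
    (Finset.sum_add_sum_compl A _).symm
  have hs2 : ∀ j, ∑ i, X i j = ∑ i ∈ A, X i j + ∑ i ∈ Aᶜ, X i j := fun j =>
    (Finset.sum_add_sum_compl A _).symm
  have r1 : ∑ i ∈ A, ∑ j ∈ A, X i j + ∑ i ∈ A, ∑ j ∈ Aᶜ, X i j = A.card * R := by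
    rw [← Finset.sum_add_distrib, ← marg_sum_A A R s]
    apply Finset.sum_congr rfl
    intro i _
    rw [← hr i, hs1]
  have r2 : ∑ i ∈ Aᶜ, ∑ j ∈ A, X i j + ∑ i ∈ Aᶜ, ∑ j ∈ Aᶜ, X i j = Aᶜ.card * s := by
    rw [← Finset.sum_add_distrib, ← marg_sum_Ac A R s]
    apply Finset.sum_congr rfl
    intro i _
    rw [← hr i, hs1]
  have r3 : ∑ i ∈ A, ∑ j ∈ A, X i j + ∑ i ∈ Aᶜ, ∑ j ∈ A, X i j = A.card * R := by
    rw [Finset.sum_comm (s := A) (t := A), Finset.sum_comm (s := Aᶜ) (t := A), ← Finset.sum_add_distrib,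
      ← marg_sum_A A R s]
    apply Finset.sum_congr rfl
    intro j _
    rw [← hc j, hs2]
  have r4 : ∑ i ∈ A, ∑ j ∈ Aᶜ, X i j = ∑ i ∈ I, ∑ j ∈ Aᶜ, X i j + ∑ i ∈ A \ I, ∑ j ∈ Aᶜ, X i j := by
    rw [add_comm, Finset.sum_sdiff hI]
  rw [Finset.mem_biUnion]
  refine ⟨(∑ i ∈ A, ∑ j ∈ Aᶜ, X i j, ∑ i ∈ I, ∑ j ∈ Aᶜ, X i j), ?_, ?_⟩
  · rw [Finset.mem_product, Finset.mem_range, Finset.mem_range]
    constructor <;> simp only <;> omega
  · rw [if_pos ⟨by simp only; omega, ht, by simp only; omega⟩, mem_BS hI]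
    refine ⟨by simp only; omega, by simp only; omega, rfl, by simp only; omega, by simp only; omega⟩

theorem BadI_card (A I : Finset α) (hI : I ⊆ A) (R s t : ℕ) (K : ℝ) (hK : 0 ≤ K)
    (hterm : ∀ w w1, w ≤ A.card * R → w ≤ Aᶜ.card * s → t ≤ w1 → w1 ≤ w →
      mc (A.card * A.card) (A.card * R - w) * mc (A.card * Aᶜ.card) w *
        (mc (I.card * Aᶜ.card) w1 * mc ((A \ I).card * Aᶜ.card) (w - w1)) *
        mc (Aᶜ.card * Aᶜ.card) (Aᶜ.card * s - w) ≤ K) :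
    ((BadI A I R s t).card : ℝ) ≤ ((A.card * R + 1 : ℕ) : ℝ)^2 * K := by
  have h1 := (Finset.card_le_card (BadI_sub A I hI R s t)).trans Finset.card_biUnion_le
  have h2 : ((BadI A I R s t).card : ℝ) ≤ ∑ p ∈ range (A.card * R + 1) ×ˢ range (A.card * R + 1),
      (((if p.1 ≤ Aᶜ.card * s ∧ t ≤ p.2 ∧ p.2 ≤ p.1 then
        BS A I (A.card * R - p.1) p.1 p.2 (p.1 - p.2) (Aᶜ.card * s - p.1) else ∅ :
          Finset (α → α → ℕ))).card : ℝ) := by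
    exact_mod_cast h1
  refine h2.trans ?_
  have h3 : ∀ p ∈ range (A.card * R + 1) ×ˢ range (A.card * R + 1),
      (((if p.1 ≤ Aᶜ.card * s ∧ t ≤ p.2 ∧ p.2 ≤ p.1 then
        BS A I (A.card * R - p.1) p.1 p.2 (p.1 - p.2) (Aᶜ.card * s - p.1) else ∅ :
          Finset (α → α → ℕ))).card : ℝ) ≤ K := by
    rintro ⟨w, w1⟩ hp
    rw [Finset.mem_product, Finset.mem_range, Finset.mem_range] at hp
    by_cases hc : w ≤ Aᶜ.card * s ∧ t ≤ w1 ∧ w1 ≤ w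
    · simp only [hc, and_self, if_true]
      rw [card_BS A I hI]
      have := hterm w w1 (by have := hp.1; simp only at this; omega) hc.1 hc.2.1 hc.2.2
      unfold mc at this
      push_cast
      rw [mul_comm Aᶜ.card A.card]
      refine le_trans (le_of_eq ?_) this
      ring
    · simp only [hc, if_false, Finset.card_empty, Nat.cast_zero]
      exact hK
  refine (Finset.sum_le_sum h3).trans ?_
  rw [Finset.sum_const, Finset.card_product, Finset.card_range, nsmul_eq_mul]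
  push_cast
  apply le_of_eq; ring

end Pool.Agent.R974.CT
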