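import Mathlib
import Pool.Agent.R974.CT.Z

/-! Numerical part: `n = N^4`, `d = N^3`, `N = 6k`. -/

namespace Pool.Agent.R974.CT

open Finset

set_option linter.unusedSectionVars false

theorem num2 (x : ℝ) (hx : 100 ≤ x) :
    (((x^7/2) + (x^7/2 - 3*x^6/8))/(x^7/2 - 3*x^6/8)) *
      ((x^7/2 - 5*x^6/8)/(((x^7/2)-1)+(x^7/2 - 5*x^6/8))) ≤ 1 - 1/(5*x) := by
  have hx0 : 0 < x := by linarith
  have h6 : (100:ℝ) ≤ x^6 := by
    calc (100:ℝ) ≤ 100^6 := by norm_num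
      _ ≤ x^6 := pow_le_pow_left₀ (by norm_num) hx 6
  have h6' : 0 < x^6 := by positivity
  have e1 : ((x^7/2) + (x^7/2 - 3*x^6/8))/(x^7/2 - 3*x^6/8) = (x - 3/8)/(x/2 - 3/8) := by
    have : (x^7/2) + (x^7/2 - 3*x^6/8) = x^6 * (x - 3/8) := by ring
    rw [this]
    have : x^7/2 - 3*x^6/8 = x^6 * (x/2 - 3/8) := by ring
    rw [this, mul_div_mul_left _ _ h6'.ne']
  have e2 : (x^7/2 - 5*x^6/8)/(((x^7/2)-1)+(x^7/2 - 5*x^6/8)) ≤ (x/2 - 5/8)/(x - 51/80) := by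
    have a1 : x^7/2 - 5*x^6/8 = x^6 * (x/2 - 5/8) := by ring
    have a2 : ((x^7/2)-1)+(x^7/2 - 5*x^6/8) = x^6 * (x - 5/8) - 1 := by ring
    rw [a2, a1, div_le_div_iff₀ (by nlinarith) (by linarith)]
    have a3 : x^6 * (x - 51/80) ≤ x^6 * (x - 5/8) - 1 := by nlinarith
    have a4 : 0 ≤ x/2 - 5/8 := by linarith
    nlinarith
  rw [e1]
  have p1 : 0 < x/2 - 3/8 := by linarith
  have p2 : 0 < x - 51/80 := by linarith
  have p3 : 0 ≤ (x - 3/8)/(x/2 - 3/8) := div_nonneg (by linarith) p1.le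
  refine (mul_le_mul_of_nonneg_left e2 p3).trans ?_
  rw [div_mul_div_comm, div_le_iff₀ (mul_pos p1 p2)]
  have e3 : 1 - 1/(5*x) = (5*x-1)/(5*x) := by field_simp
  rw [e3, div_mul_eq_mul_div, le_div_iff₀ (by linarith)]
  obtain ⟨y, hy, rfl⟩ : ∃ y : ℝ, 0 ≤ y ∧ x = y + 100 := ⟨x - 100, by linarith, by ring⟩
  rw [← sub_nonneg]
  ring_nf
  positivity

theorem num1 (x : ℝ) (hx : 100 ≤ x) :
    (((x^7) + (x^7 - 2*x^6))/(x^7 - 2*x^6))^2 * ((2*x^7 - (x^7 - 2*x^6))/((x^6-1)+(2*x^7 - (x^7 - 2*x^6)))) *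
      ((x^8/3 - (x^7 - 2*x^6))/((x^8-1)+(x^8/3 - (x^7 - 2*x^6)))) ≤ 1 - 1/x := by
  have hx0 : 0 < x := by linarith
  have h6 : (100:ℝ) ≤ x^6 := by
    calc (100:ℝ) ≤ 100^6 := by norm_num
      _ ≤ x^6 := pow_le_pow_left₀ (by norm_num) hx 6
  have h6' : 0 < x^6 := by positivity
  have e1 : ((x^7) + (x^7 - 2*x^6))/(x^7 - 2*x^6) = 2*(x-1)/(x-2) := by
    have : (x^7) + (x^7 - 2*x^6) = x^6 * (2*(x-1)) := by ring
    rw [this]
    have : x^7 - 2*x^6 = x^6 * (x - 2) := by ring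
    rw [this, mul_div_mul_left _ _ h6'.ne']
  have e2 : (2*x^7 - (x^7 - 2*x^6))/((x^6-1)+(2*x^7 - (x^7 - 2*x^6))) ≤ (x+2)/(x+299/100) := by
    have a1 : 2*x^7 - (x^7 - 2*x^6) = x^6 * (x+2) := by ring
    have a2 : (x^6-1)+(2*x^7 - (x^7 - 2*x^6)) = x^6 * (x+3) - 1 := by ring
    rw [a2, a1, div_le_div_iff₀ (by nlinarith) (by linarith)]
    have a3 : x^6 * (x + 299/100) ≤ x^6 * (x +3) - 1 := by nlinarith
    have a4 : 0 ≤ x + 2 := by linarith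
    nlinarith
  have e3 : (x^8/3 - (x^7 - 2*x^6))/((x^8-1)+(x^8/3 - (x^7 - 2*x^6))) ≤
      (x^2/3 - x + 2)/(4/3*x^2 - x + 199/100) := by
    have a1 : x^8/3 - (x^7 - 2*x^6) = x^6 * (x^2/3 - x + 2) := by ring
    have a2 : (x^8-1)+(x^8/3 - (x^7 - 2*x^6)) = x^6 * (4/3*x^2 - x + 2) - 1 := by ring
    have a4 : 0 ≤ x^2/3 - x + 2 := by nlinarith
    have a5 : 0 < 4/3*x^2 - x + 199/100 := by nlinarith
    have a3 : x^6 * (4/3*x^2 - x + 199/100) ≤ x^6 * (4/3*x^2 - x + 2) - 1 := by nlinarith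
    have a6 : 0 < x^6 * (4/3*x^2 - x + 199/100) := mul_pos h6' a5
    rw [a2, a1, div_le_div_iff₀ (by linarith) a5]
    calc x^6 * (x^2/3 - x + 2) * (4/3*x^2 - x + 199/100)
        = (x^2/3 - x + 2) * (x^6 * (4/3*x^2 - x + 199/100)) := by ring
      _ ≤ (x^2/3 - x + 2) * (x^6 * (4/3*x^2 - x + 2) - 1) := mul_le_mul_of_nonneg_left a3 a4
  have q1 : 0 < 4/3*x^2 - x + 199/100 := by nlinarith
  have q2 : 0 ≤ x^2/3 - x + 2 := by nlinarith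
  have q3 : 0 < x + 299/100 := by linarith
  have q4 : 0 < x - 2 := by linarith
  rw [e1]
  have n2 : 0 ≤ (2*x^7 - (x^7 - 2*x^6))/((x^6-1)+(2*x^7 - (x^7 - 2*x^6))) := by
    have a1 : 2*x^7 - (x^7 - 2*x^6) = x^6 * (x+2) := by ring
    rw [a1]
    apply div_nonneg (by positivity)
    have : 0 ≤ x^6 * (x+2) := by positivity
    linarith
  have n3 : 0 ≤ (x^8/3 - (x^7 - 2*x^6))/((x^8-1)+(x^8/3 - (x^7 - 2*x^6))) := by
    have a1 : x^8/3 - (x^7 - 2*x^6) = x^6 * (x^2/3 - x + 2) := by ring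
    rw [a1]
    have h8 : 1 ≤ x^8 := one_le_pow₀ (by linarith)
    have : 0 ≤ x^6 * (x^2/3 - x + 2) := mul_nonneg h6'.le q2
    apply div_nonneg this
    linarith
  apply prod_bd n2 (div_nonneg (by linarith) q4.le) n3 e2 (le_refl _) e3
  rw [div_pow, div_mul_div_comm, div_mul_div_comm, div_le_iff₀ (by positivity)]
  have e4 : 1 - 1/x = (x-1)/x := by field_simp
  rw [e4, div_mul_eq_mul_div, le_div_iff₀ hx0]
  obtain ⟨y, hy, rfl⟩ : ∃ y : ℝ, 0 ≤ y ∧ x = y + 100 := ⟨x - 100, by linarith, by ring⟩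
  rw [← sub_nonneg]
  ring_nf
  positivity

end Pool.Agent.R974.CT
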