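import Mathlib
import Pool.Agent.R974.CT.Q

/-! The bound for a fixed set `I` of rows. -/

namespace Pool.Agent.R974.CT

open Finset

set_option linter.unusedSectionVars false

variable {α : Type*} [Fintype α] [DecidableEq α]

/-- All the size parameters. -/
structure Par (N d n h R s q : ℕ) (x : ℝ) : Prop where
  hx : (N:ℝ) = x
  hx100 : 100 ≤ x
  hd : (d:ℝ) = x^3
  hn : (n:ℝ) = x^4
  hh : (h:ℝ) = x^3/2
  hR : (R:ℝ) = 2*x^4
  hs : (s:ℝ) = x^4/3
  hq : (q:ℝ) = x^6/8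

theorem pow_exp_bound {a : ℝ} (ha1 : a ≤ 1) (m : ℕ) :
    (1 - a)^m ≤ Real.exp (-(a * m)) := by
  have h1 : 1 - a ≤ Real.exp (-a) := by
    have := Real.add_one_le_exp (-a); linarith
  calc (1-a)^m ≤ (Real.exp (-a))^m := pow_le_pow_left₀ (by linarith) h1 m
    _ = Real.exp (-(a*m)) := by
        rw [← Real.exp_nat_mul]; congr 1; ring

theorem caseB (D E F TB TS wb w N6 : ℕ) (x : ℝ) (hx100 : 100 ≤ x) (r1 : (TB:ℝ) = 2*x^7)
    (r2 : (TS:ℝ) = x^8/3) (r3 : (D:ℝ) = x^6) (r4 : (E:ℝ) = x^7) (r5 : (F:ℝ) = x^8)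
    (r7 : (N6:ℝ) = x^6) (rwb : (wb:ℝ) = x^7 - 2*x^6) (hw : w ≤ TB) (hcase : wb + N6 ≤ w) :
    Gc D E F TB TS w ≤ Real.exp (-(x^5/40)) * Gc D E F TB TS wb := by
  have hx0 : 0 < x := by linarith
  have h6 : (100:ℝ) ≤ x^6 := by
    calc (100:ℝ) ≤ 100^6 := by norm_num
      _ ≤ x^6 := pow_le_pow_left₀ (by norm_num) hx100 6
  have h7 : 100 * x^6 ≤ x^7 := by
    have : x^7 = x * x^6 := by ring
    rw [this]; exact mul_le_mul_of_nonneg_right hx100 (by positivity)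
  have h8 : 100 * x^7 ≤ x^8 := by
    have : x^8 = x * x^7 := by ring
    rw [this]; exact mul_le_mul_of_nonneg_right hx100 (by positivity)
  have hTS : TB ≤ TS := by
    have : (TB:ℝ) ≤ (TS:ℝ) := by rw [r1, r2]; linarith
    exact_mod_cast this
  have hwbpos : 0 < wb := by
    have : (0:ℝ) < wb := by rw [rwb]; linarith
    exact_mod_cast this
  have hD1 : 1 ≤ D := by
    have : (1:ℝ) ≤ (D:ℝ) := by rw [r3]; linarith
    exact_mod_cast this
  have hF1 : 1 ≤ F := by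
    have : (1:ℝ) ≤ (F:ℝ) := by rw [r5]; exact one_le_pow₀ (by linarith)
    exact_mod_cast this
  have hinv : 1/x ≤ 1 := by rw [div_le_one hx0]; linarith
  have hinv0 : 0 ≤ 1/x := by positivity
  have hnum : (((E:ℝ)+wb)/wb)^2 * (((TB:ℝ)-wb)/(((D:ℝ)-1)+((TB:ℝ)-wb))) *
      (((TS:ℝ)-wb)/(((F:ℝ)-1)+((TS:ℝ)-wb))) ≤ 1 - 1/x := by
    rw [r1, r2, r3, r4, r5, rwb]
    exact num1 x hx100
  have hdec := decay (fun v => Gc D E F TB TS v) (ρ := 1 - 1/x) (by linarith) (by linarith)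
    (fun v => Gc_nonneg _ _ _ _ _ _) wb TB N6 (fun v hv1 hv2 =>
      Gc_step D E F TB TS v wb (1-1/x) hD1 hF1 hwbpos hv1 hv2 (lt_of_lt_of_le hv2 hTS) hnum) w hcase hw
  have he := pow_exp_bound (a := 1/x) hinv N6
  have e5 : 1/x * (N6:ℝ) = x^5 := by rw [r7]; field_simp
  rw [e5] at he
  have he2 : Real.exp (-x^5) ≤ Real.exp (-(x^5/40)) := by
    apply Real.exp_le_exp.mpr
    have : 0 < x^5 := by positivity
    linarith
  exact hdec.trans (mul_le_mul_of_nonneg_right (he.trans he2) (Gc_nonneg _ _ _ _ _ _))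

theorem caseA (H w w0 q w1 : ℕ) (x : ℝ) (hx100 : 100 ≤ x) (r6 : (H:ℝ) = x^7/2)
    (rw0 : (w0:ℝ) = x^7/2 - 3*x^6/8) (rq : (q:ℝ) = x^6/8) (hwlt : (w:ℝ) ≤ x^7 - x^6)
    (htq : w0 + q ≤ w1) (hw1 : w1 ≤ w) :
    mc H w1 * mc H (w-w1) ≤ Real.exp (-(x^5/40)) * (mc H w0 * mc H (w-w0)) := by
  have hx0 : 0 < x := by linarith
  have h6 : (100:ℝ) ≤ x^6 := by
    calc (100:ℝ) ≤ 100^6 := by norm_num
      _ ≤ x^6 := pow_le_pow_left₀ (by norm_num) hx100 6
  have h7 : 100 * x^6 ≤ x^7 := by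
    have : x^7 = x * x^6 := by ring
    rw [this]; exact mul_le_mul_of_nonneg_right hx100 (by positivity)
  have hw0pos : 0 < w0 := by
    have : (0:ℝ) < w0 := by rw [rw0]; linarith
    exact_mod_cast this
  have hHpos : 1 ≤ H := by
    have : (1:ℝ) ≤ (H:ℝ) := by rw [r6]; linarith
    exact_mod_cast this
  have hinv : 1/(5*x) ≤ 1 := by rw [div_le_one (by linarith)]; linarith
  have hinv0 : 0 ≤ 1/(5*x) := by positivity
  have hnum : (((H:ℝ)+w0)/w0) * ((x^7/2 - 5*x^6/8)/(((H:ℝ)-1)+(x^7/2 - 5*x^6/8))) ≤ 1 - 1/(5*x) := by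
    rw [r6, rw0]; exact num2 x hx100
  have hdec := decay (fun v => mc H v * mc H (w-v)) (ρ := 1 - 1/(5*x)) (by linarith) (by linarith)
    (fun v => mul_nonneg (mc_nonneg _ _) (mc_nonneg _ _)) w0 w q (fun v hv1 hv2 =>
      T_step H w w0 v (1 - 1/(5*x)) (x^7/2 - 5*x^6/8) hHpos hw0pos hv1 hv2
        (by rw [rw0]; linarith) hnum) w1 htq hw1
  have he := pow_exp_bound (a := 1/(5*x)) hinv q
  have e5 : 1/(5*x) * (q:ℝ) = x^5/40 := by rw [rq]; field_simp; norm_num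
  rw [e5] at he
  exact hdec.trans (mul_le_mul_of_nonneg_right he (mul_nonneg (mc_nonneg _ _) (mc_nonneg _ _)))

theorem term_bound (A I : Finset α) (hI : I ⊆ A) {N d n h R s q : ℕ} {x : ℝ}
    (hp : Par N d n h R s q x) (hA : A.card = d) (hAc : Aᶜ.card = n) (hIc : I.card = h)
    (w w1 : ℕ) (hw : w ≤ A.card * R) (hw' : w ≤ Aᶜ.card * s) (ht : h * (N^4 - N^2) ≤ w1) (hw1 : w1 ≤ w) :
    mc (A.card * A.card) (A.card * R - w) * mc (A.card * Aᶜ.card) w *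
        (mc (I.card * Aᶜ.card) w1 * mc ((A \ I).card * Aᶜ.card) (w - w1)) *
        mc (Aᶜ.card * Aᶜ.card) (Aᶜ.card * s - w) ≤
      Real.exp (-(x^5/40)) * (vec A R s * TT A R s) := by
  obtain ⟨hx, hx100, hd, hn, hh, hR, hs, hq⟩ := hp
  have hx0 : 0 < x := by linarith
  have hAI : (A \ I).card = h := by
    rw [Finset.card_sdiff_of_subset hI, hA, hIc]
    have : (d:ℝ) = 2*h := by rw [hd, hh]; ring
    have : d = 2*h := by exact_mod_cast this
    omega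
  rw [hAI, hIc]
  have hGle := fun w' h1 h2 => Gc_le A R s w' h1 h2
  rw [hA] at hw
  rw [hAc] at hw'
  rw [hA, hAc] at hGle ⊢
  -- real forms
  have r1 : ((d*R:ℕ):ℝ) = 2*x^7 := by push_cast; rw [hd, hR]; ring
  have r2 : ((n*s:ℕ):ℝ) = x^8/3 := by push_cast; rw [hn, hs]; ring
  have r3 : ((d*d:ℕ):ℝ) = x^6 := by push_cast; rw [hd]; ring
  have r4 : ((d*n:ℕ):ℝ) = x^7 := by push_cast; rw [hd, hn]; ring
  have r5 : ((n*n:ℕ):ℝ) = x^8 := by push_cast; rw [hn]; ring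
  have r6 : ((h*n:ℕ):ℝ) = x^7/2 := by push_cast; rw [hh, hn]; ring
  have r7 : ((N^6:ℕ):ℝ) = x^6 := by push_cast; rw [hx]
  have h6 : (100:ℝ) ≤ x^6 := by
    calc (100:ℝ) ≤ 100^6 := by norm_num
      _ ≤ x^6 := pow_le_pow_left₀ (by norm_num) hx100 6
  have hdn : d * n = h*n + h*n := by
    have : ((d*n:ℕ):ℝ) = ((h*n+h*n:ℕ):ℝ) := by
      rw [Nat.cast_add, r4, r6]; ring
    exact_mod_cast this
  have hrest : 0 ≤ mc (d*d) (d*R-w) * mc (d*n) w * mc (n*n) (n*s-w) :=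
    mul_nonneg (mul_nonneg (mc_nonneg _ _) (mc_nonneg _ _)) (mc_nonneg _ _)
  have hgl : ∀ v, v ≤ w → mc (h*n) v * mc (h*n) (w-v) ≤ mc (d*n) w := by
    intro v hv
    rw [hdn]
    have := glue (h*n) (h*n) v (w-v)
    have e : v + (w-v) = w := by omega
    rw [e] at this
    unfold mc
    exact_mod_cast this
  have hN1 : 2 ≤ N := by
    have : (2:ℝ) ≤ N := by rw [hx]; linarith
    exact_mod_cast this
  have rwa : ((N^6*(N-1):ℕ):ℝ) = x^7 - x^6 := by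
    rw [Nat.cast_mul, Nat.cast_sub (by omega), r7, hx]; push_cast; ring
  have rwb : ((N^6*(N-2):ℕ):ℝ) = x^7 - 2*x^6 := by
    rw [Nat.cast_mul, Nat.cast_sub hN1, r7, hx]; push_cast; ring
  have hGform : mc (d*n) w * (mc (d*d) (d*R-w) * mc (d*n) w * mc (n*n) (n*s-w)) =
      Gc (d*d) (d*n) (n*n) (d*R) (n*s) w := by unfold Gc; ring
  by_cases hcase : w < N^6*(N-1)
  · have h3q : 3*q ≤ h*n := by
      have : ((3*q:ℕ):ℝ) ≤ ((h*n:ℕ):ℝ) := by
        rw [r6]; push_cast; rw [hq]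
        nlinarith
      exact_mod_cast this
    have rw0 : ((h*n-3*q:ℕ):ℝ) = x^7/2 - 3*x^6/8 := by
      rw [Nat.cast_sub h3q, r6]; push_cast; rw [hq]; ring
    have htq : (h*n-3*q) + q ≤ w1 := by
      refine le_trans ?_ ht
      have h24 : N^2 ≤ N^4 := Nat.pow_le_pow_right (by omega) (by norm_num)
      have : (((h*n-3*q)+q:ℕ):ℝ) ≤ ((h*(N^4-N^2):ℕ):ℝ) := by
        rw [Nat.cast_add, rw0, Nat.cast_mul, Nat.cast_sub h24]
        push_cast
        rw [hq, hh, hx]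
        have h5 : x^5 * 100 ≤ x^6 := by
          have : x^6 = x^5 * x := by ring
          rw [this]
          exact mul_le_mul_of_nonneg_left hx100 (by positivity)
        have e : x^3/2 * (x^4 - x^2) = x^7/2 - x^5/2 := by ring
        rw [e]
        have : 0 < x^5 := by positivity
        linarith
      exact_mod_cast this
    have hwlt : (w:ℝ) ≤ x^7 - x^6 := by
      rw [← rwa]; exact_mod_cast hcase.le
    have hT := caseA (h*n) w (h*n-3*q) q w1 x hx100 r6 rw0 hq hwlt htq hw1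
    have hT2 : mc (h*n) w1 * mc (h*n) (w-w1) ≤ Real.exp (-(x^5/40)) * mc (d*n) w :=
      hT.trans (mul_le_mul_of_nonneg_left (hgl _ (by omega)) (Real.exp_pos _).le)
    calc mc (d*d) (d*R-w) * mc (d*n) w * (mc (h*n) w1 * mc (h*n) (w-w1)) * mc (n*n) (n*s-w)
        = (mc (h*n) w1 * mc (h*n) (w-w1)) * (mc (d*d) (d*R-w) * mc (d*n) w * mc (n*n) (n*s-w)) := by ring
      _ ≤ (Real.exp (-(x^5/40)) * mc (d*n) w) * (mc (d*d) (d*R-w) * mc (d*n) w * mc (n*n) (n*s-w)) :=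
          mul_le_mul_of_nonneg_right hT2 hrest
      _ = Real.exp (-(x^5/40)) * Gc (d*d) (d*n) (n*n) (d*R) (n*s) w := by rw [mul_assoc, hGform]
      _ ≤ Real.exp (-(x^5/40)) * (vec A R s * TT A R s) :=
          mul_le_mul_of_nonneg_left (hGle w hw hw') (Real.exp_pos _).le
  · push Not at hcase
    have hTS : d*R ≤ n*s := by
      have : ((d*R:ℕ):ℝ) ≤ ((n*s:ℕ):ℝ) := by
        rw [r1, r2]
        have : x^8 = x^7 * x := by ring
        rw [this]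
        have : 0 < x^7 := by positivity
        nlinarith
      exact_mod_cast this
    have hwab : N^6*(N-2) + N^6 = N^6*(N-1) := by
      have : ((N^6*(N-2)+N^6:ℕ):ℝ) = ((N^6*(N-1):ℕ):ℝ) := by
        rw [rwa, Nat.cast_add, rwb, r7]; ring
      exact_mod_cast this
    have hG := caseB (d*d) (d*n) (n*n) (d*R) (n*s) (N^6*(N-2)) w (N^6) x hx100 r1 r2 r3 r4 r5 r7 rwb hw
      (by omega)
    have hwbTB : N^6*(N-2) ≤ d*R := by omega
    calc mc (d*d) (d*R-w) * mc (d*n) w * (mc (h*n) w1 * mc (h*n) (w-w1)) * mc (n*n) (n*s-w)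
        = (mc (h*n) w1 * mc (h*n) (w-w1)) * (mc (d*d) (d*R-w) * mc (d*n) w * mc (n*n) (n*s-w)) := by ring
      _ ≤ mc (d*n) w * (mc (d*d) (d*R-w) * mc (d*n) w * mc (n*n) (n*s-w)) :=
          mul_le_mul_of_nonneg_right (hgl w1 hw1) hrest
      _ = Gc (d*d) (d*n) (n*n) (d*R) (n*s) w := hGform
      _ ≤ Real.exp (-(x^5/40)) * Gc (d*d) (d*n) (n*n) (d*R) (n*s) (N^6*(N-2)) := hG
      _ ≤ Real.exp (-(x^5/40)) * (vec A R s * TT A R s) :=
          mul_le_mul_of_nonneg_left (hGle _ hwbTB (hwbTB.trans hTS)) (Real.exp_pos _).le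

theorem BadI_final (A I : Finset α) (hI : I ⊆ A) {N d n h R s q : ℕ} {x : ℝ}
    (hp : Par N d n h R s q x) (hA : A.card = d) (hAc : Aᶜ.card = n) (hIc : I.card = h) :
    ((BadI A I R s (h * (N^4 - N^2))).card : ℝ) ≤ ((A.card * R + 1 : ℕ) : ℝ)^2 *
      (Real.exp (-(x^5/40)) * (vec A R s * TT A R s)) := by
  apply BadI_card A I hI R s _ _ _ (fun w w1 h1 h2 h3 h4 => term_bound A I hI hp hA hAc hIc w w1 h1 h2 h3 h4)
  apply mul_nonneg (Real.exp_pos _).le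
  apply mul_nonneg
  · unfold vec; exact Nat.cast_nonneg _
  · unfold TT; exact Nat.cast_nonneg _

end Pool.Agent.R974.CT
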