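import Mathlib
import Pool.Agent.R974.CT.Q2

/-! Exchangeability and the final finite estimate. -/

namespace Pool.Agent.R974.CT

open Finset

set_option linter.unusedSectionVars false

variable {α : Type*} [Fintype α] [DecidableEq α]

/-- row sum over the small columns -/
def Srow (A : Finset α) (X : α → α → ℕ) (i : α) : ℕ := ∑ j ∈ Aᶜ, X i j

theorem exch (A : Finset α) (R s t : ℕ) (i i0 : α) (hi : i ∈ A) (hi0 : i0 ∈ A) :
    ((TabF (marg A R s) (marg A R s)).filter (fun X => t ≤ Srow A X i)).card =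
    ((TabF (marg A R s) (marg A R s)).filter (fun X => t ≤ Srow A X i0)).card := by
  have hm : ∀ k, marg A R s (Equiv.swap i i0 k) = marg A R s k := by
    intro k
    by_cases h1 : k = i
    · subst h1; rw [Equiv.swap_apply_left]; unfold marg; simp [hi, hi0]
    · by_cases h2 : k = i0
      · subst h2; rw [Equiv.swap_apply_right]; unfold marg; simp [hi, hi0]
      · rw [Equiv.swap_apply_of_ne_of_ne h1 h2]
  have hT : ∀ X ∈ TabF (marg A R s) (marg A R s),
      (fun k => X (Equiv.swap i i0 k)) ∈ TabF (marg A R s) (marg A R s) := by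
    intro X hX
    rw [mem_TabF] at hX ⊢
    refine ⟨fun k => ?_, fun j => ?_⟩
    · rw [hX.1, hm]
    · rw [← hX.2 j]
      exact Equiv.sum_comp (Equiv.swap i i0) (fun k => X k j)
  apply Finset.card_nbij' (fun X k => X (Equiv.swap i i0 k)) (fun X k => X (Equiv.swap i i0 k))
  · intro X hX
    rw [Finset.mem_coe, Finset.mem_filter] at hX ⊢
    refine ⟨hT X hX.1, ?_⟩
    unfold Srow at hX ⊢
    simp only [Equiv.swap_apply_right]
    exact hX.2
  · intro X hX
    rw [Finset.mem_coe, Finset.mem_filter] at hX ⊢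
    refine ⟨hT X hX.1, ?_⟩
    unfold Srow at hX ⊢
    simp only [Equiv.swap_apply_left]
    exact hX.2
  · intro X _
    funext k
    simp only [Equiv.swap_apply_self]
  · intro X _
    funext k
    simp only [Equiv.swap_apply_self]

/-- many rows are large -/
def BadS (A : Finset α) (R s t h : ℕ) : Finset (α → α → ℕ) :=
  (TabF (marg A R s) (marg A R s)).filter (fun X => h ≤ (A.filter (fun i => t ≤ Srow A X i)).card)

theorem BadS_card (A : Finset α) (R s t h : ℕ) (K : ℝ)
    (hK : ∀ I, I ⊆ A → I.card = h → ((BadI A I R s (h*t)).card : ℝ) ≤ K) (hK0 : 0 ≤ K) :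
    ((BadS A R s t h).card : ℝ) ≤ 2^(A.card) * K := by
  have hsub : BadS A R s t h ⊆ (A.powerset).biUnion (fun I => if I.card = h then BadI A I R s (h*t) else ∅) := by
    intro X hX
    unfold BadS at hX
    rw [Finset.mem_filter] at hX
    obtain ⟨I, hI1, hI2⟩ := Finset.exists_subset_card_eq hX.2
    rw [Finset.mem_biUnion]
    have hIA : I ⊆ A := hI1.trans (Finset.filter_subset _ _)
    refine ⟨I, Finset.mem_powerset.mpr hIA, ?_⟩
    rw [if_pos hI2]
    unfold BadI
    rw [Finset.mem_filter]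
    refine ⟨hX.1, ?_⟩
    have := Finset.card_nsmul_le_sum I (fun i => Srow A X i) t (fun i hi => by
      have := hI1 hi
      rw [Finset.mem_filter] at this
      exact this.2)
    rw [hI2, smul_eq_mul] at this
    exact this
  have h1 := (Finset.card_le_card hsub).trans Finset.card_biUnion_le
  have h2 : ((BadS A R s t h).card : ℝ) ≤
      ∑ I ∈ A.powerset, (((if I.card = h then BadI A I R s (h*t) else ∅ : Finset (α → α → ℕ))).card : ℝ) := by
    exact_mod_cast h1
  refine h2.trans ?_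
  have h3 : ∀ I ∈ A.powerset, (((if I.card = h then BadI A I R s (h*t) else ∅ : Finset (α → α → ℕ))).card : ℝ) ≤ K := by
    intro I hI
    by_cases hc : I.card = h
    · rw [if_pos hc]; exact hK I (Finset.mem_powerset.mp hI) hc
    · rw [if_neg hc]; simpa using hK0
  refine (Finset.sum_le_sum h3).trans ?_
  rw [Finset.sum_const, Finset.card_powerset, nsmul_eq_mul]
  push_cast
  exact le_refl _

theorem first_row (A : Finset α) (R s t h : ℕ) (i0 : α) (hi0 : i0 ∈ A) :
    (A.card : ℝ) * (((TabF (marg A R s) (marg A R s)).filter (fun X => t ≤ Srow A X i0)).card : ℝ) ≤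
      h * TT A R s + A.card * ((BadS A R s t h).card : ℝ) := by
  have h1 : A.card * ((TabF (marg A R s) (marg A R s)).filter (fun X => t ≤ Srow A X i0)).card =
      ∑ X ∈ TabF (marg A R s) (marg A R s), (A.filter (fun i => t ≤ Srow A X i)).card := by
    have e1 : ∑ i ∈ A, ((TabF (marg A R s) (marg A R s)).filter (fun X => t ≤ Srow A X i)).card =
        A.card * ((TabF (marg A R s) (marg A R s)).filter (fun X => t ≤ Srow A X i0)).card := by
      rw [Finset.sum_congr rfl (fun i hi => exch A R s t i i0 hi hi0), Finset.sum_const, smul_eq_mul]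
    rw [← e1]
    simp_rw [Finset.card_filter]
    exact Finset.sum_comm
  have h2 : ∀ X ∈ TabF (marg A R s) (marg A R s), (A.filter (fun i => t ≤ Srow A X i)).card ≤
      h + (if h ≤ (A.filter (fun i => t ≤ Srow A X i)).card then A.card else 0) := by
    intro X _
    split_ifs with hc
    · have := Finset.card_filter_le A (fun i => t ≤ Srow A X i)
      omega
    · omega
  have h3 := Finset.sum_le_sum h2
  rw [← h1, Finset.sum_add_distrib, Finset.sum_const, ← Finset.sum_filter, Finset.sum_const,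
    smul_eq_mul, smul_eq_mul] at h3
  have h4 : ((A.card * ((TabF (marg A R s) (marg A R s)).filter (fun X => t ≤ Srow A X i0)).card : ℕ) : ℝ) ≤
      (((TabF (marg A R s) (marg A R s)).card * h + (BadS A R s t h).card * A.card : ℕ) : ℝ) := by
    exact_mod_cast h3
  unfold TT
  push_cast at h4 ⊢
  linarith

theorem main_finite (A : Finset α) {N d n h R s q : ℕ} {x : ℝ}
    (hp : Par N d n h R s q x) (hA : A.card = d) (hAc : Aᶜ.card = n) (i0 : α) (hi0 : i0 ∈ A) :
    (((TabF (marg A R s) (marg A R s)).filter (fun X => N^4 - N^2 ≤ Srow A X i0)).card : ℝ) ≤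
      (1/2 + 2^d * (((d*R+1:ℕ):ℝ)^2 * (Real.exp (-(x^5/40)) * (((d*R + n*s+1)^(2*(d+n)) : ℕ) : ℝ)))) *
        TT A R s := by
  have hcard : Fintype.card α = d + n := by
    rw [← hA, ← hAc, Finset.card_add_card_compl]
  have h1 := first_row A R s (N^4-N^2) h i0 hi0
  have hK : ∀ I, I ⊆ A → I.card = h → ((BadI A I R s (h*(N^4-N^2))).card : ℝ) ≤
      ((A.card * R + 1 : ℕ) : ℝ)^2 * (Real.exp (-(x^5/40)) * (vec A R s * TT A R s)) :=
    fun I hI hIc => BadI_final A I hI hp hA hAc hIc
  have hvec : vec A R s = (((d*R + n*s+1)^(2*(d+n)) : ℕ) : ℝ) := by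
    unfold vec; rw [hA, hAc, hcard]
  have hTT : 0 ≤ TT A R s := by unfold TT; exact Nat.cast_nonneg _
  have h2 := BadS_card A R s (N^4-N^2) h _ hK (by
    apply mul_nonneg (by positivity)
    apply mul_nonneg (Real.exp_pos _).le
    rw [hvec]
    exact mul_nonneg (Nat.cast_nonneg _) hTT)
  rw [hA, hvec] at h2
  rw [hA] at h1
  have hd0 : (0:ℝ) < d := by
    rw [hp.hd]; have := hp.hx100; positivity
  have hh : (h:ℝ) = d/2 := by rw [hp.hh, hp.hd]
  rw [hh] at h1
  have h3 := mul_le_mul_of_nonneg_left h2 hd0.le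
  have h4 : (d:ℝ) * (((TabF (marg A R s) (marg A R s)).filter (fun X => N^4 - N^2 ≤ Srow A X i0)).card : ℝ) ≤
      d * ((1/2 + 2^d * (((d*R+1:ℕ):ℝ)^2 * (Real.exp (-(x^5/40)) * (((d*R + n*s+1)^(2*(d+n)) : ℕ) : ℝ)))) *
        TT A R s) := by
    refine h1.trans ?_
    calc (d:ℝ)/2 * TT A R s + d * ((BadS A R s (N^4-N^2) h).card : ℝ)
        ≤ (d:ℝ)/2 * TT A R s + d * (2^d * (((d*R+1:ℕ):ℝ)^2 * (Real.exp (-(x^5/40)) *
          ((((d*R + n*s+1)^(2*(d+n)) : ℕ) : ℝ) * TT A R s)))) := by linarith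
      _ = _ := by ring
  exact le_of_mul_le_mul_left h4 hd0

/-- the error term tends to zero -/
theorem err_small : ∀ᶠ N : ℕ in Filter.atTop, ∀ d n R s : ℕ, (d:ℝ) = (N:ℝ)^3 → (n:ℝ) = (N:ℝ)^4 →
    (R:ℝ) = 2*(N:ℝ)^4 → (s:ℝ) = (N:ℝ)^4/3 →
    2^d * (((d*R+1:ℕ):ℝ)^2 * (Real.exp (-((N:ℝ)^5/40)) * (((d*R + n*s+1)^(2*(d+n)) : ℕ) : ℝ))) ≤
      Real.exp (-(N:ℝ)) := by
  have hlog : ∀ᶠ x : ℝ in Filter.atTop, Real.log x ≤ x/5440 := by
    have h := Real.isLittleO_log_id_atTop.bound (show (0:ℝ) < 1/5440 by norm_num)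
    filter_upwards [h, Filter.eventually_ge_atTop 1] with x hx h1
    rw [Real.norm_eq_abs, Real.norm_eq_abs, abs_of_nonneg (Real.log_nonneg h1)] at hx
    simp only [id] at hx
    rw [abs_of_nonneg (by linarith)] at hx
    linarith
  filter_upwards [tendsto_natCast_atTop_atTop.eventually hlog, Filter.eventually_ge_atTop 100] with N hN hN100
  intro d n R s hd hn hR hs
  set x : ℝ := (N:ℝ) with hx
  have hx100 : 100 ≤ x := by rw [hx]; exact_mod_cast hN100
  have hx0 : 0 < x := by linarith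
  have hl0 : 0 < Real.log x := Real.log_pos (by linarith)
  have hl1 : 1 ≤ Real.log x := by
    rw [Real.le_log_iff_exp_le hx0]
    have := Real.exp_one_lt_d9
    linarith
  have r1 : ((d*R+1:ℕ):ℝ) ≤ x^8 := by
    push_cast; rw [hd, hR]
    have h8 : x^8 = x * x^7 := by ring
    rw [h8]
    have h7 : 1 ≤ x^7 := one_le_pow₀ (by linarith)
    nlinarith
  have r2 : ((d*R + n*s+1:ℕ):ℝ) ≤ x^8 := by
    push_cast; rw [hd, hR, hn, hs]
    have h8 : x^8 = x * x^7 := by ring
    have h7 : 1 ≤ x^7 := one_le_pow₀ (by linarith)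
    have : x^3 * (2*x^4) + x^4 * (x^4/3) + 1 = 2*x^7 + x^8/3 + 1 := by ring
    rw [this, h8]
    nlinarith
  have e1 : (2:ℝ)^d ≤ Real.exp (x^4 * Real.log x) := by
    have : (2:ℝ)^d = Real.exp (d * Real.log 2) := by
      rw [Real.exp_nat_mul, Real.exp_log (by norm_num)]
    rw [this]
    apply Real.exp_le_exp.mpr
    rw [hd]
    have h2 : Real.log 2 ≤ 1 := by have := Real.log_two_lt_d9; linarith
    have h34 : x^3 ≤ x^4 := pow_le_pow_right₀ (by linarith) (by norm_num)
    have : 0 < x^3 := by positivity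
    calc x^3 * Real.log 2 ≤ x^3 * 1 := mul_le_mul_of_nonneg_left h2 (by positivity)
      _ = x^3 := mul_one _
      _ ≤ x^4 := h34
      _ = x^4 * 1 := (mul_one _).symm
      _ ≤ x^4 * Real.log x := mul_le_mul_of_nonneg_left hl1 (by positivity)
  have e8 : x^8 = Real.exp (8 * Real.log x) := by
    have : (8:ℝ) = ((8:ℕ):ℝ) := by norm_num
    rw [this, Real.exp_nat_mul, Real.exp_log hx0]
  have e2 : ((d*R+1:ℕ):ℝ)^2 ≤ Real.exp (x^4 * Real.log x) := by
    calc ((d*R+1:ℕ):ℝ)^2 ≤ (x^8)^2 := pow_le_pow_left₀ (Nat.cast_nonneg _) r1 2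
      _ = Real.exp (16 * Real.log x) := by
          rw [e8, ← Real.exp_nat_mul]; congr 1; push_cast; ring
      _ ≤ Real.exp (x^4 * Real.log x) := by
          apply Real.exp_le_exp.mpr
          apply mul_le_mul_of_nonneg_right _ hl0.le
          calc (16:ℝ) ≤ 100^4 := by norm_num
            _ ≤ x^4 := pow_le_pow_left₀ (by norm_num) hx100 4
  have e3 : (((d*R + n*s+1)^(2*(d+n)) : ℕ) : ℝ) ≤ Real.exp (32 * (x^4 * Real.log x)) := by
    rw [Nat.cast_pow]
    calc ((d*R + n*s+1:ℕ):ℝ)^(2*(d+n)) ≤ (x^8)^(2*(d+n)) := pow_le_pow_left₀ (Nat.cast_nonneg _) r2 _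
      _ = Real.exp (((2*(d+n):ℕ):ℝ) * (8 * Real.log x)) := by
          rw [e8, ← Real.exp_nat_mul]
      _ ≤ Real.exp (32 * (x^4 * Real.log x)) := by
          apply Real.exp_le_exp.mpr
          push_cast
          rw [hd, hn]
          have h34 : x^3 ≤ x^4 := pow_le_pow_right₀ (by linarith) (by norm_num)
          nlinarith
  have e4 : Real.exp (x^4 * Real.log x) * (Real.exp (x^4 * Real.log x) * (Real.exp (-(x^5/40)) *
      Real.exp (32 * (x^4 * Real.log x)))) = Real.exp (34 * (x^4 * Real.log x) - x^5/40) := by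
    rw [← Real.exp_add, ← Real.exp_add, ← Real.exp_add]; congr 1; ring
  calc 2^d * (((d*R+1:ℕ):ℝ)^2 * (Real.exp (-(x^5/40)) * (((d*R + n*s+1)^(2*(d+n)) : ℕ) : ℝ)))
      ≤ Real.exp (x^4 * Real.log x) * (Real.exp (x^4 * Real.log x) * (Real.exp (-(x^5/40)) *
      Real.exp (32 * (x^4 * Real.log x)))) := by
        apply mul_le_mul e1 _ (by positivity) (Real.exp_pos _).le
        apply mul_le_mul e2 _ (by positivity) (Real.exp_pos _).le
        exact mul_le_mul_of_nonneg_left e3 (Real.exp_pos _).le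
    _ = Real.exp (34 * (x^4 * Real.log x) - x^5/40) := e4
    _ ≤ Real.exp (-x) := by
        apply Real.exp_le_exp.mpr
        have h1 : 34 * (x^4 * Real.log x) ≤ x^5/160 := by
          calc 34 * (x^4 * Real.log x) ≤ 34 * (x^4 * (x/5440)) := by
                apply mul_le_mul_of_nonneg_left _ (by norm_num)
                exact mul_le_mul_of_nonneg_left hN (by positivity)
            _ = x^5/160 := by ring
        have h2 : 100 * x ≤ x^5 := by
          have : x^5 = x^4 * x := by ring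
          rw [this]
          apply mul_le_mul_of_nonneg_right _ hx0.le
          calc (100:ℝ) ≤ 100^4 := by norm_num
            _ ≤ x^4 := pow_le_pow_left₀ (by norm_num) hx100 4
        linarith

end Pool.Agent.R974.CT
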